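import Pool.Agent.Y722.HS.Box

set_option autoImplicit false
set_option linter.unusedSectionVars false

/-! Turan's inequality with exceptional pairs, and events modulo `m` for a family of vectors with weights. -/

namespace Pool.Agent.J4.H78.DV
open Finset Pool.Agent.Y722.HS

open Classical in
/-- Turan's inequality with exceptional pairs -/
theorem turan_avg {I : Type} (Om : Finset I) (w : I → ℝ) (hw : ∀ i ∈ Om, 0 ≤ w i) (hw1 : ∑ i ∈ Om, w i = 1)
    {α : Type} [DecidableEq α] (P : Finset α) (f : α → I → ℝ) (hf : ∀ p ∈ P, ∀ i ∈ Om, f p i = 0 ∨ f p i = 1)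
    (m : α → ℝ) (ε : ℝ) (hε : 0 ≤ ε)
    (h1 : ∀ p ∈ P, |∑ i ∈ Om, w i * f p i - m p| ≤ ε) (h : α → α → ℝ) (hh : ∀ p q, 0 ≤ h p q)
    (h2 : ∀ p ∈ P, ∀ q ∈ P, p ≠ q → ∑ i ∈ Om, w i * (f p i * f q i) ≤ m p * m q + ε + h p q)
    (μ : ℝ) (hμ : μ = ∑ p ∈ P, m p) (hμ0 : 0 < μ) (hm : ∀ p ∈ P, 0 ≤ m p) (T : ℝ) (hT : T ≤ μ / 2) :
    ∑ i ∈ Om.filter (fun i => ∑ p ∈ P, f p i < T), w i ≤
      4 / μ ^ 2 * (μ + P.card * ε + (P.card : ℝ) ^ 2 * ε + 2 * μ * (P.card * ε) +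
        ∑ p ∈ P, ∑ q ∈ P, if p = q then 0 else h p q) := by
  obtain ⟨X, hX⟩ : ∃ X : I → ℝ, ∀ i, X i = ∑ p ∈ P, f p i := ⟨_, fun i => rfl⟩
  have hE1 : μ - P.card * ε ≤ ∑ i ∈ Om, w i * X i := by
    have e1 : ∑ i ∈ Om, w i * X i = ∑ p ∈ P, ∑ i ∈ Om, w i * f p i := by
      simp only [hX, mul_sum]
      rw [sum_comm]
    rw [e1, hμ]
    have e2 : ∑ p ∈ P, m p - P.card * ε = ∑ p ∈ P, (m p - ε) := by
      rw [sum_sub_distrib, sum_const, nsmul_eq_mul]
    rw [e2]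
    apply sum_le_sum
    intro p hp
    have := (abs_le.1 (h1 p hp)).1
    linarith
  have hE2 : ∑ i ∈ Om, w i * X i ^ 2 ≤ μ + P.card * ε + (μ ^ 2 + (P.card : ℝ) ^ 2 * ε) +
      ∑ p ∈ P, ∑ q ∈ P, (if p = q then 0 else h p q) := by
    have e1 : ∑ i ∈ Om, w i * X i ^ 2 = ∑ p ∈ P, ∑ q ∈ P, ∑ i ∈ Om, w i * (f p i * f q i) := by
      have e0 : ∀ i ∈ Om, w i * X i ^ 2 = ∑ p ∈ P, ∑ q ∈ P, w i * (f p i * f q i) := by
        intro i _
        rw [hX, sq, sum_mul_sum, mul_sum]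
        apply sum_congr rfl
        intro p _
        rw [mul_sum]
      rw [sum_congr rfl e0, sum_comm]
      apply sum_congr rfl
      intro p _
      rw [sum_comm]
    rw [e1]
    have h3 : ∀ p ∈ P, ∀ q ∈ P, ∑ i ∈ Om, w i * (f p i * f q i) ≤
        (if p = q then m p + ε else 0) + (m p * m q + ε) + (if p = q then 0 else h p q) := by
      intro p hp q hq
      by_cases hpq : p = q
      · subst hpq
        rw [if_pos rfl, if_pos rfl]
        have e2 : ∑ i ∈ Om, w i * (f p i * f p i) = ∑ i ∈ Om, w i * f p i := by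
          apply sum_congr rfl
          intro i hi
          rcases hf p hp i hi with h4 | h4 <;> rw [h4] <;> ring
        rw [e2]
        have h4 := (abs_le.1 (h1 p hp)).2
        have h5 := hm p hp
        nlinarith
      · rw [if_neg hpq, if_neg hpq]
        have := h2 p hp q hq hpq
        linarith
    refine (sum_le_sum fun p hp => sum_le_sum fun q hq => h3 p hp q hq).trans ?_
    simp only [sum_add_distrib]
    have e3 : ∑ p ∈ P, ∑ q ∈ P, (if p = q then m p + ε else 0) = μ + P.card * ε := by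
      rw [sum_congr rfl (fun p hp => by rw [sum_ite_eq, if_pos hp]), sum_add_distrib, ← hμ, sum_const, nsmul_eq_mul]
    have e4 : ∑ p ∈ P, ∑ q ∈ P, m p * m q = μ ^ 2 := by
      rw [hμ, sq, sum_mul_sum]
    have e5 : ∑ p ∈ P, ∑ _q ∈ P, ε = (P.card : ℝ) ^ 2 * ε := by
      rw [sum_const, sum_const, nsmul_eq_mul, nsmul_eq_mul]
      ring
    rw [e3, e4, e5]
  have hvar : ∑ i ∈ Om, w i * (X i - μ) ^ 2 ≤ μ + P.card * ε + (P.card : ℝ) ^ 2 * ε + 2 * μ * (P.card * ε) +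
        ∑ p ∈ P, ∑ q ∈ P, (if p = q then 0 else h p q) := by
    have e1 : ∑ i ∈ Om, w i * (X i - μ) ^ 2 = ∑ i ∈ Om, w i * X i ^ 2 - 2 * μ * ∑ i ∈ Om, w i * X i + μ ^ 2 := by
      have e2 : ∀ i ∈ Om, w i * (X i - μ) ^ 2 = w i * X i ^ 2 - 2 * μ * (w i * X i) + w i * μ ^ 2 := by
        intro i _
        ring
      rw [sum_congr rfl e2, sum_add_distrib, sum_sub_distrib, ← mul_sum, ← sum_mul, hw1, one_mul]
    rw [e1]
    have h3 : 2 * μ * (μ - P.card * ε) ≤ 2 * μ * ∑ i ∈ Om, w i * X i :=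
      mul_le_mul_of_nonneg_left hE1 (by positivity)
    nlinarith
  obtain ⟨V, hV⟩ : ∃ V, V = μ + P.card * ε + (P.card : ℝ) ^ 2 * ε + 2 * μ * (P.card * ε) +
        ∑ p ∈ P, ∑ q ∈ P, (if p = q then 0 else h p q) := ⟨_, rfl⟩
  rw [← hV] at hvar ⊢
  have hbad : (∑ i ∈ Om.filter (fun i => ∑ p ∈ P, f p i < T), w i) * (μ ^ 2 / 4) ≤ V := by
    refine le_trans ?_ hvar
    rw [sum_mul]
    calc ∑ i ∈ Om.filter (fun i => ∑ p ∈ P, f p i < T), w i * (μ ^ 2 / 4) ≤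
        ∑ i ∈ Om.filter (fun i => ∑ p ∈ P, f p i < T), w i * (X i - μ) ^ 2 := by
          apply sum_le_sum
          intro i hi
          rw [mem_filter] at hi
          apply mul_le_mul_of_nonneg_left _ (hw i hi.1)
          have h3 : X i < μ / 2 := by
            rw [hX]
            exact hi.2.trans_le hT
          have h4 : μ / 2 ≤ μ - X i := by linarith
          calc μ ^ 2 / 4 = (μ / 2) ^ 2 := by ring
            _ ≤ (μ - X i) ^ 2 := pow_le_pow_left₀ (by positivity) h4 2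
            _ = _ := by ring
      _ ≤ _ := sum_le_sum_of_subset_of_nonneg (filter_subset _ _)
          fun i hi _ => mul_nonneg (hw i hi) (sq_nonneg _)
  rw [div_mul_eq_mul_div, le_div_iff₀ (by positivity)]
  linarith

section
variable {ι : Type} [Fintype ι] [DecidableEq ι]

open Classical in
/-- the random vector `x` is nearly uniform modulo `m` -/
def Wel {I : Type} (Om : Finset I) (w : I → ℝ) (x : I → ι → ℤ) (m : ℕ) (τ : ℝ) : Prop :=
  ∀ ρ : ι → ZMod m, |∑ i ∈ Om.filter (fun i => red m (x i) = ρ), w i - 1 / (m : ℝ) ^ Fintype.card ι| ≤ τ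

open Classical in
theorem ev_one {I : Type} {Om : Finset I} {w : I → ℝ} {x : I → ι → ℤ} {m : ℕ} [NeZero m] {τ : ℝ}
    (hτ : 0 ≤ τ) (h : Wel Om w x m τ) (Ω : Set (ι → ZMod m)) :
    |∑ i ∈ Om, w i * (if red m (x i) ∈ Ω then 1 else 0) - (Ω.ncard : ℝ) / (m : ℝ) ^ Fintype.card ι| ≤
      (m : ℝ) ^ Fintype.card ι * τ := by
  have hm0 : (0 : ℝ) < m := by exact_mod_cast Nat.pos_of_ne_zero (NeZero.ne m)
  have e1 : ∑ i ∈ Om, w i * (if red m (x i) ∈ Ω then 1 else 0) =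
      ∑ ρ ∈ Ω.toFinset, ∑ i ∈ Om.filter (fun i => red m (x i) = ρ), w i := by
    have e2 := Finset.sum_fiberwise_of_maps_to (s := Om.filter (fun i => red m (x i) ∈ Ω)) (t := Ω.toFinset)
      (g := fun i => red m (x i)) (fun i hi => by
        rw [Set.mem_toFinset]
        exact (mem_filter.1 hi).2) w
    have e3 : ∑ i ∈ Om, w i * (if red m (x i) ∈ Ω then (1 : ℝ) else 0) = ∑ i ∈ Om.filter (fun i => red m (x i) ∈ Ω), w i := by
      rw [sum_filter]
      apply sum_congr rfl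
      intro i _
      split_ifs <;> ring
    rw [e3, ← e2]
    apply sum_congr rfl
    intro ρ hρ
    rw [Set.mem_toFinset] at hρ
    apply sum_congr _ fun _ _ => rfl
    rw [filter_filter]
    apply filter_congr
    intro i _
    constructor
    · exact fun h => h.2
    · exact fun h => ⟨by rw [h]; exact hρ, h⟩
  have e4 : (Ω.ncard : ℝ) / (m : ℝ) ^ Fintype.card ι = ∑ ρ ∈ Ω.toFinset, 1 / (m : ℝ) ^ Fintype.card ι := by
    rw [sum_const, nsmul_eq_mul, ← Set.ncard_eq_toFinset_card']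
    ring
  rw [e1, e4, ← sum_sub_distrib]
  refine (abs_sum_le_sum_abs _ _).trans ((sum_le_sum fun ρ _ => h ρ).trans ?_)
  rw [sum_const, nsmul_eq_mul]
  apply mul_le_mul_of_nonneg_right _ hτ
  have h2 : Ω.toFinset.card ≤ Fintype.card (ι → ZMod m) := card_le_univ _
  rw [Fintype.card_fun, ZMod.card] at h2
  exact_mod_cast h2

/-- the Chinese remainder theorem for vectors -/
noncomputable def crt (p q : ℕ) (hpq : Nat.Coprime p q) : (ι → ZMod (p * q)) ≃ (ι → ZMod p) × (ι → ZMod q) :=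
  (Equiv.piCongrRight fun _ => (ZMod.chineseRemainder hpq).toEquiv).trans (Equiv.arrowProdEquivProdArrow _ _ _)

lemma crt_red (p q : ℕ) (hpq : Nat.Coprime p q) (c : ι → ℤ) : crt p q hpq (red (p * q) c) = (red p c, red q c) := by
  unfold crt red
  ext i
  · simp [Equiv.arrowProdEquivProdArrow]
  · simp [Equiv.arrowProdEquivProdArrow]

open Classical in
theorem ev_two {I : Type} {Om : Finset I} {w : I → ℝ} {x : I → ι → ℤ} {p q : ℕ} [NeZero p] [NeZero q] {τ : ℝ}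
    (hτ : 0 ≤ τ) (hpq : Nat.Coprime p q) (h : Wel Om w x (p * q) τ) (Ω : Set (ι → ZMod p)) (Ω' : Set (ι → ZMod q)) :
    ∑ i ∈ Om, w i * ((if red p (x i) ∈ Ω then 1 else 0) * (if red q (x i) ∈ Ω' then 1 else 0)) ≤
      (Ω.ncard : ℝ) / (p : ℝ) ^ Fintype.card ι * ((Ω'.ncard : ℝ) / (q : ℝ) ^ Fintype.card ι) +
      ((p * q : ℕ) : ℝ) ^ Fintype.card ι * τ := by
  have hp0 : (0 : ℝ) < p := by exact_mod_cast Nat.pos_of_ne_zero (NeZero.ne p)
  have hq0 : (0 : ℝ) < q := by exact_mod_cast Nat.pos_of_ne_zero (NeZero.ne q)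
  have : NeZero (p * q) := ⟨mul_ne_zero (NeZero.ne p) (NeZero.ne q)⟩
  have h1 := (abs_le.1 (ev_one hτ h ((crt p q hpq) ⁻¹' (Ω ×ˢ Ω')))).2
  have e1 : (((crt p q hpq) ⁻¹' (Ω ×ˢ Ω') : Set (ι → ZMod (p * q))).ncard) = Ω.ncard * Ω'.ncard := by
    rw [← Set.ncard_prod]
    rw [Set.ncard_preimage_of_injective_subset_range (crt p q hpq).injective]
    rw [(crt p q hpq).surjective.range_eq]
    exact Set.subset_univ _
  have e2 : ∀ i, (if red p (x i) ∈ Ω then (1 : ℝ) else 0) * (if red q (x i) ∈ Ω' then 1 else 0) =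
      if red (p * q) (x i) ∈ (crt p q hpq) ⁻¹' (Ω ×ˢ Ω') then 1 else 0 := by
    intro i
    have e4 : red (p * q) (x i) ∈ (crt p q hpq) ⁻¹' (Ω ×ˢ Ω') ↔ red p (x i) ∈ Ω ∧ red q (x i) ∈ Ω' := by
      rw [Set.mem_preimage, crt_red]
      exact Iff.rfl
    by_cases h3 : red p (x i) ∈ Ω
    · by_cases h4 : red q (x i) ∈ Ω'
      · rw [if_pos h3, if_pos h4, if_pos (e4.2 ⟨h3, h4⟩), one_mul]
      · rw [if_neg h4, if_neg (fun h => h4 (e4.1 h).2), mul_zero]
    · rw [if_neg h3, if_neg (fun h => h3 (e4.1 h).1), zero_mul]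
  simp only [e2]
  rw [e1] at h1
  have e3 : (Ω.ncard : ℝ) / (p : ℝ) ^ Fintype.card ι * ((Ω'.ncard : ℝ) / (q : ℝ) ^ Fintype.card ι) =
      ((Ω.ncard * Ω'.ncard : ℕ) : ℝ) / ((p * q : ℕ) : ℝ) ^ Fintype.card ι := by
    push_cast
    rw [mul_pow]
    field_simp
  rw [e3]
  linarith

end

end Pool.Agent.J4.H78.DV
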