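import Pool.Agent.R459.Eq8
import Pool.Agent.TH872.Sq.W2
import Pool.Agent.J4.H78.DV.Prob

set_option autoImplicit false

/-! Vectors of integers with independent digits: distribution modulo `m`. -/

namespace Pool.Agent.J4.H78.DV
open Finset
open Pool.Agent.H807R2.Dav
open Pool.Agent.TH872.Sq (Dig P P_nonneg P_sum ex_char)
open Pool.Agent.TH872.Mir (Far farCount)
open Pool.Agent.R459.Eq (Decays good centered co mean Per norm_co)
open Pool.Agent.W93.RD (char_le)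
open Pool.Agent.Y722.HS (red)

/-- the characteristic function of an integer with independent digits -/
theorem ind_decays (b : ℕ) (hb : 2 ≤ b) (η : ℝ) (hη : 0 < η) (hη1 : η ≤ 1) : ∃ γ : ℝ, 0 < γ ∧ γ < 1 ∧
    ∀ (k : ℕ) (w : ℕ → ℕ → ℝ), Dig b η w →
    Decays b b.factorial 1 k γ 1 (range (b ^ k)) (P b w 0 k) (fun n : ℕ => (n : ℤ)) := by
  classical
  have hb2 : (2 : ℝ) ≤ b := by exact_mod_cast hb
  have hb0 : (0 : ℝ) < b := by linarith
  have hf : (1 : ℝ) ≤ (b.factorial : ℝ) := by exact_mod_cast b.factorial_pos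
  obtain ⟨γ, hγ⟩ : ∃ γ : ℝ, γ = 1 - 4 * (η / b) * ((1 / (b : ℝ) ^ 2) / b.factorial) ^ 2 := ⟨_, rfl⟩
  have hγ1 : γ < 1 := by
    rw [hγ]
    have : 0 < 4 * (η / b) * ((1 / (b : ℝ) ^ 2) / b.factorial) ^ 2 := by positivity
    linarith
  have hγ0 : 0 < γ := by
    rw [hγ]
    have h1 : (1 / (b : ℝ) ^ 2) / b.factorial ≤ 1 / 4 := by
      rw [div_div]
      apply one_div_le_one_div_of_le (by norm_num)
      nlinarith
    have h2 : ((1 / (b : ℝ) ^ 2) / b.factorial) ^ 2 ≤ (1 / 4) ^ 2 := pow_le_pow_left₀ (by positivity) h1 2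
    have h3 : η / b ≤ 1 / 2 := by
      rw [div_le_div_iff₀ (by linarith) (by norm_num)]
      linarith
    have h4 : (η / b) * ((1 / (b : ℝ) ^ 2) / b.factorial) ^ 2 ≤ 1 / 2 * (1 / 4) ^ 2 :=
      mul_le_mul h3 h2 (by positivity) (by norm_num)
    linarith
  refine ⟨γ, hγ0, hγ1, fun k w hw => ⟨fun n _ => P_nonneg hw _ _ _, P_sum (by omega) hw 0 k, ?_⟩⟩
  intro θ N hN _
  have e0 : ∑ i ∈ range (b ^ k), ((P b w 0 k i : ℝ) : ℂ) * ee ((((i : ℕ) : ℤ) : ℝ) * θ) =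
      ∏ j ∈ range k, ∑ a ∈ range b, ((w (0 + j) a : ℝ) : ℂ) * ee (a * ((b : ℝ) ^ j * θ)) := by
    rw [← ex_char b (by omega)]
    rfl
  rw [e0, norm_prod]
  have h1 : ∀ j ∈ range k, ‖∑ a ∈ range b, ((w (0 + j) a : ℝ) : ℂ) * ee (a * ((b : ℝ) ^ j * θ))‖ ≤
      if Far (1 / (b : ℝ) ^ 2) ((b.factorial : ℝ) * ((b : ℝ) ^ j * (((1 : ℤ) : ℝ) * θ))) then γ else 1 := by
    intro j _
    split_ifs with h
    · rw [hγ]
      apply char_le b (w (0 + j)) η hη (hw.nonneg _) (hw.le _) (hw.sum _) _ (1 / (b : ℝ) ^ 2) (by positivity)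
      intro n
      have := h n
      rw [Int.cast_one, one_mul] at this
      exact this
    · refine (norm_sum_le _ _).trans ?_
      rw [← hw.sum (0 + j)]
      apply sum_le_sum
      intro a _
      rw [norm_mul, norm_ee, mul_one, Complex.norm_real, Real.norm_of_nonneg (hw.nonneg _ a)]
  refine (prod_le_prod (fun _ _ => norm_nonneg _) h1).trans ?_
  rw [prod_ite, prod_const, prod_const_one, mul_one]
  apply pow_le_pow_of_le_one hγ0.le hγ1.le
  unfold farCount at hN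
  rw [one_mul] at hN
  refine le_trans ?_ (le_trans hN (le_of_eq ?_))
  · omega
  · congr 1

/-- a sparse set of bad moduli -/
theorem goodD (b : ℕ) (hb : 2 ≤ b) (η : ℝ) (hη : 0 < η) (hη1 : η ≤ 1) (D B : ℕ) (hD : 1 ≤ D) :
    ∃ W : ℕ, 1 ≤ W ∧ ∃ (S : Set ℕ) (C : ℝ), 0 < C ∧
    (∀ (M : ℕ) (T : Finset ℕ), (∀ m ∈ T, m ∈ S ∧ 1 ≤ m ∧ m ≤ M) → (T.card : ℝ) ≤ C * (M : ℝ) ^ (1 / (D : ℝ))) ∧
    ∀ (k x : ℕ), b ≤ x → x ^ W ≤ b ^ k → ∀ w : ℕ → ℕ → ℝ, Dig b η w →
    ∀ m : ℕ, 1 ≤ m → m ≤ x ^ B → m ∉ S → Nat.Coprime b m → ∀ a : ℕ, Nat.Coprime a m →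
      ‖∑ n ∈ range (b ^ k), ((P b w 0 k n : ℝ) : ℂ) * ee ((n : ℝ) * ((a : ℝ) / (m : ℝ)))‖ ≤ 1 / (x : ℝ) ^ B := by
  obtain ⟨γ, h1, h2, h3⟩ := ind_decays b hb η hη hη1
  obtain ⟨W, hW, H⟩ := good b hb 1 γ h1 h2 D B hD
  obtain ⟨S, C, hC, hS, hgood⟩ := H b.factorial 1 b.factorial_pos one_ne_zero
  refine ⟨W, hW, S, C, hC, hS, fun k x hbx hxW w hw m hm hmx hmS hbm a ha => ?_⟩
  exact hgood k x hbx hxW ℕ _ _ _ (h3 k w hw) m hm hmx hmS hbm a ha

/-- distribution modulo `m` -/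
theorem dist_one {b : ℕ} (hb : 2 ≤ b) {η : ℝ} {w : ℕ → ℕ → ℝ} (hw : Dig b η w) (k m : ℕ) (hm : 1 ≤ m) (τ : ℝ)
    (h : ∀ m' : ℕ, m' ∣ m → m' ≠ 1 → ∀ a : ℕ, Nat.Coprime a m' →
      ‖∑ n ∈ range (b ^ k), ((P b w 0 k n : ℝ) : ℂ) * ee ((n : ℝ) * ((a : ℝ) / (m' : ℝ)))‖ ≤ τ) (hτ : 0 ≤ τ) (c t : ℤ) :
    |∑ n ∈ range (b ^ k), P b w 0 k n * (if (m : ℤ) ∣ c + n - t then 1 else 0) - 1 / m| ≤ m * τ := by
  classical
  have hm0 : (0 : ℝ) < m := by exact_mod_cast hm
  obtain ⟨f, hf⟩ : ∃ f : ℤ → ℝ, ∀ v, f v = if (m : ℤ) ∣ c + v - t then 1 else 0 := ⟨_, fun _ => rfl⟩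
  have hper : Per m f := by
    intro u v huv
    rw [hf, hf]
    have : (m : ℤ) ∣ c + u - t ↔ (m : ℤ) ∣ c + v - t := by
      have e : c + u - t = (c + v - t) + (u - v) := by ring
      rw [e]
      exact dvd_add_left huv
    simp only [this]
  have hmean : mean m f = 1 / m := by
    unfold mean
    congr 1
    obtain ⟨t0, ht0⟩ : ∃ t0 : ℕ, (t0 : ℤ) = (t - c) % m := ⟨((t - c) % m).toNat, by
      rw [Int.toNat_of_nonneg (Int.emod_nonneg _ (by omega))]⟩
    have ht0p : t0 < m := by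
      have := Int.emod_lt_of_pos (t - c) (by omega : (0 : ℤ) < m)
      omega
    have hdvd : (m : ℤ) ∣ (t - c) - t0 := by
      rw [ht0]
      exact Int.dvd_self_sub_emod
    rw [sum_eq_single t0]
    · rw [hf, if_pos]
      have := (dvd_neg (a := (m : ℤ))).2 hdvd
      rwa [show -((t - c) - (t0 : ℤ)) = c + t0 - t by ring] at this
    · intro s hs hne
      rw [hf, if_neg]
      intro h1
      apply hne
      rw [mem_range] at hs
      have h2 := dvd_add h1 hdvd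
      rw [show c + (s : ℤ) - t + ((t - c) - t0) = s - t0 by ring] at h2
      have h3 := Int.eq_zero_of_abs_lt_dvd h2 (by rw [abs_lt]; omega)
      omega
    · intro h1
      exact absurd (mem_range.2 ht0p) h1
  have hsum1 : ∑ n ∈ range (b ^ k), P b w 0 k n = 1 := P_sum (by omega) hw 0 k
  have e1 : ((∑ n ∈ range (b ^ k), P b w 0 k n * (if (m : ℤ) ∣ c + n - t then 1 else 0) - 1 / m : ℝ) : ℂ) =
      ∑ a ∈ Ico 1 m, co m f a * ∑ n ∈ range (b ^ k), ((P b w 0 k n : ℝ) : ℂ) * ee ((n : ℝ) * ((a : ℝ) / m)) := by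
    have e2 : ∑ n ∈ range (b ^ k), P b w 0 k n * (if (m : ℤ) ∣ c + n - t then 1 else 0) - 1 / m =
        ∑ n ∈ range (b ^ k), P b w 0 k n * (f n - mean m f) := by
      simp only [mul_sub]
      rw [sum_sub_distrib, ← sum_mul, hsum1, one_mul, hmean]
      congr 1
      apply sum_congr rfl
      intro n _
      rw [hf]
    rw [e2, Complex.ofReal_sum]
    simp only [mul_sum]
    have e0 : ∀ n ∈ range (b ^ k), ((P b w 0 k n * (f n - mean m f) : ℝ) : ℂ) =
        ∑ a ∈ Ico 1 m, co m f a * (((P b w 0 k n : ℝ) : ℂ) * ee ((n : ℝ) * ((a : ℝ) / m))) := by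
      intro n _
      rw [Complex.ofReal_mul, centered m hm f hper, mul_sum]
      apply sum_congr rfl
      intro a _
      have e1 : (a : ℝ) * (((n : ℤ) : ℝ) / m) = (n : ℝ) * ((a : ℝ) / m) := by
        push_cast
        ring
      rw [e1]
      ring
    rw [sum_congr rfl e0, sum_comm]
  rw [← Real.norm_eq_abs, ← Complex.norm_real, e1]
  refine (norm_sum_le _ _).trans ?_
  have h2 : ∀ a ∈ Ico 1 m, ‖co m f a * ∑ n ∈ range (b ^ k), ((P b w 0 k n : ℝ) : ℂ) * ee ((n : ℝ) * ((a : ℝ) / m))‖ ≤ τ := by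
    intro a ha
    rw [mem_Ico] at ha
    rw [norm_mul]
    have h3 := norm_co m hm f (by
      intro n
      rw [hf]
      split_ifs <;> norm_num) a
    have hg : 0 < Nat.gcd a m := Nat.gcd_pos_of_pos_left _ (by omega)
    have hda := Nat.gcd_dvd_left a m
    have hdm := Nat.gcd_dvd_right a m
    have h4 := h (m / Nat.gcd a m) (Nat.div_dvd_of_dvd hdm) (by
      intro h5
      have h6 : m = Nat.gcd a m := by
        have h7 := Nat.div_mul_cancel hdm
        rw [h5, one_mul] at h7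
        exact h7.symm
      have h7 : Nat.gcd a m ≤ a := Nat.le_of_dvd (by omega) hda
      omega) (a / Nat.gcd a m) (Nat.coprime_div_gcd_div_gcd hg)
    have e3 : ((a / Nat.gcd a m : ℕ) : ℝ) / ((m / Nat.gcd a m : ℕ) : ℝ) = (a : ℝ) / m := by
      have hg0 : ((Nat.gcd a m : ℕ) : ℝ) ≠ 0 := by exact_mod_cast hg.ne'
      rw [Nat.cast_div hda hg0, Nat.cast_div hdm hg0]
      field_simp
    rw [e3] at h4
    calc _ ≤ 1 * τ := mul_le_mul h3 h4 (norm_nonneg _) zero_le_one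
      _ = τ := one_mul _
  refine (sum_le_card_nsmul _ _ _ h2).trans ?_
  rw [Nat.card_Ico, nsmul_eq_mul]
  apply mul_le_mul_of_nonneg_right _ hτ
  exact_mod_cast Nat.sub_le _ _

/-- products of numbers in `[0, 1]` -/
lemma prod_close {α : Type} (s : Finset α) (A B : α → ℝ) (hA : ∀ j ∈ s, 0 ≤ A j ∧ A j ≤ 1)
    (hB : ∀ j ∈ s, 0 ≤ B j ∧ B j ≤ 1) (τ : ℝ) (h : ∀ j ∈ s, |A j - B j| ≤ τ) :
    |∏ j ∈ s, A j - ∏ j ∈ s, B j| ≤ s.card * τ := by
  classical
  induction s using Finset.induction_on with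
  | empty => simp
  | insert a s ha ih =>
    rw [prod_insert ha, prod_insert ha, card_insert_of_notMem ha]
    have h1 := ih (fun j hj => hA j (mem_insert_of_mem hj)) (fun j hj => hB j (mem_insert_of_mem hj))
      (fun j hj => h j (mem_insert_of_mem hj))
    have h2 := h a (mem_insert_self _ _)
    have h3 := hA a (mem_insert_self _ _)
    have h4 : 0 ≤ ∏ j ∈ s, B j ∧ ∏ j ∈ s, B j ≤ 1 :=
      ⟨prod_nonneg fun j hj => (hB j (mem_insert_of_mem hj)).1,
        prod_le_one (fun j hj => (hB j (mem_insert_of_mem hj)).1) fun j hj => (hB j (mem_insert_of_mem hj)).2⟩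
    have e : A a * ∏ j ∈ s, A j - B a * ∏ j ∈ s, B j =
        A a * (∏ j ∈ s, A j - ∏ j ∈ s, B j) + (A a - B a) * ∏ j ∈ s, B j := by ring
    rw [e]
    refine (abs_add_le _ _).trans ?_
    rw [abs_mul, abs_mul, abs_of_nonneg h3.1, abs_of_nonneg h4.1]
    have h5 : A a * |∏ j ∈ s, A j - ∏ j ∈ s, B j| ≤ 1 * (s.card * τ) :=
      mul_le_mul h3.2 h1 (abs_nonneg _) zero_le_one
    have h6 : |A a - B a| * ∏ j ∈ s, B j ≤ τ * 1 :=
      mul_le_mul h2 h4.2 h4.1 ((abs_nonneg _).trans h2)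
    push_cast
    linarith

section
variable {r : ℕ}

/-- the vectors with `k j` digits in base `b j` -/
def OmV (b k : Fin r → ℕ) : Finset (Fin r → ℕ) := Fintype.piFinset fun j => range (b j ^ k j)

/-- the probability of a vector -/
noncomputable def PV (b k : Fin r → ℕ) (w : Fin r → ℕ → ℕ → ℝ) (n : Fin r → ℕ) : ℝ := ∏ j, P (b j) (w j) 0 (k j) (n j)

lemma PV_nonneg {b k : Fin r → ℕ} {η : ℝ} {w : Fin r → ℕ → ℕ → ℝ} (hw : ∀ j, Dig (b j) η (w j)) (n : Fin r → ℕ) :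
    0 ≤ PV b k w n := prod_nonneg fun j _ => P_nonneg (hw j) _ _ _

lemma PV_sum {b k : Fin r → ℕ} (hb : ∀ j, 2 ≤ b j) {η : ℝ} {w : Fin r → ℕ → ℕ → ℝ} (hw : ∀ j, Dig (b j) η (w j)) :
    ∑ n ∈ OmV b k, PV b k w n = 1 := by
  unfold OmV PV
  rw [← prod_univ_sum]
  apply prod_eq_one
  intro j _
  exact P_sum (by have := hb j; omega) (hw j) 0 (k j)

open Classical in
/-- the vectors are well distributed modulo `m` -/
theorem wel_vec {b k : Fin r → ℕ} (hb : ∀ j, 2 ≤ b j) {η : ℝ} {w : Fin r → ℕ → ℕ → ℝ} (hw : ∀ j, Dig (b j) η (w j))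
    (c : Fin r → ℤ) (m : ℕ) (hm : 1 ≤ m) (τ : ℝ)
    (h : ∀ j, ∀ t : ℤ, |∑ n ∈ range (b j ^ k j), P (b j) (w j) 0 (k j) n * (if (m : ℤ) ∣ c j + n - t then 1 else 0) - 1 / m| ≤ τ) :
    Wel (OmV b k) (PV b k w) (fun n j => c j + n j) m (r * τ) := by
  intro ρ
  have hm0 : (0 : ℝ) < m := by exact_mod_cast hm
  have hm1 : (1 : ℝ) ≤ m := by exact_mod_cast hm
  have : NeZero m := ⟨by omega⟩
  have e1 : ∑ n ∈ (OmV b k).filter (fun n => red m (fun j => c j + (n j : ℤ)) = ρ), PV b k w n =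
      ∏ j, ∑ n ∈ range (b j ^ k j), P (b j) (w j) 0 (k j) n * (if (m : ℤ) ∣ c j + n - ((ρ j).val : ℤ) then 1 else 0) := by
    rw [prod_univ_sum, sum_filter]
    unfold OmV PV
    apply sum_congr rfl
    intro n _
    rw [prod_mul_distrib]
    have e2 : (red m (fun j => c j + (n j : ℤ)) = ρ) ↔ ∀ j, (m : ℤ) ∣ c j + n j - ((ρ j).val : ℤ) := by
      rw [funext_iff]
      apply forall_congr'
      intro j
      unfold red
      have e3 : (((ρ j).val : ℤ) : ZMod m) = ρ j := by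
        rw [Int.cast_natCast, ZMod.natCast_zmod_val]
      rw [← ZMod.intCast_eq_intCast_iff_dvd_sub, e3]
      exact eq_comm
    by_cases h1 : red m (fun j => c j + (n j : ℤ)) = ρ
    · rw [if_pos h1]
      have h2 := e2.1 h1
      rw [prod_eq_one (f := fun j => if (m : ℤ) ∣ c j + n j - ((ρ j).val : ℤ) then (1 : ℝ) else 0) (fun j _ => if_pos (h2 j)), mul_one]
    · rw [if_neg h1]
      have h2 : ¬ ∀ j, (m : ℤ) ∣ c j + n j - ((ρ j).val : ℤ) := fun h => h1 (e2.2 h)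
      push Not at h2
      obtain ⟨j, hj⟩ := h2
      rw [prod_eq_zero (f := fun j => if (m : ℤ) ∣ c j + n j - ((ρ j).val : ℤ) then (1 : ℝ) else 0) (mem_univ j) (if_neg hj), mul_zero]
  rw [e1]
  have e4 : 1 / (m : ℝ) ^ Fintype.card (Fin r) = ∏ _j : Fin r, 1 / (m : ℝ) := by
    rw [prod_const, card_univ, one_div_pow]
  rw [e4]
  have h3 := prod_close (univ : Finset (Fin r)) (fun j => ∑ n ∈ range (b j ^ k j), P (b j) (w j) 0 (k j) n *
      (if (m : ℤ) ∣ c j + n - ((ρ j).val : ℤ) then 1 else 0)) (fun _ => 1 / (m : ℝ)) (by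
        intro j _
        constructor
        · apply sum_nonneg
          intro n _
          apply mul_nonneg (P_nonneg (hw j) _ _ _)
          split_ifs <;> norm_num
        · refine le_trans (sum_le_sum (g := fun n => P (b j) (w j) 0 (k j) n) fun n _ => ?_)
            (le_of_eq (P_sum (by have := hb j; omega : 0 < b j) (hw j) 0 (k j)))
          have := P_nonneg (hw j) 0 (k j) n
          split_ifs
          · rw [mul_one]
          · rw [mul_zero]
            exact this) (by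
        intro j _
        constructor
        · positivity
        · rw [div_le_one hm0]
          exact hm1) τ (fun j _ => h j _)
  rw [card_univ, Fintype.card_fin] at h3
  exact h3

end

end Pool.Agent.J4.H78.DV
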