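import Pool.Agent.J4.H78.DV.Poly
import Pool.Agent.N141.TS.Thin5

set_option autoImplicit false

/-! Large poles of rational functions at vectors of integers with independent digits. -/

namespace Pool.Agent.J4.H78.DV
open Finset Filter MvPolynomial
open Pool.Agent.TH872.Sq (Dig P P_nonneg P_sum ex_char)
open Pool.Agent.Y722.HS (red)
open Pool.Agent.N141.TS (MeanPoles MeanSet ZP eval_red growth Big5)

open Classical in
theorem thinD {r : ℕ} (hr : 1 ≤ r) {A D : MvPolynomial (Fin r) ℤ} (hD : D ≠ 0) (hM : MeanPoles A D)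
    (b : Fin r → ℕ) (hb : ∀ j, 2 ≤ b j) (η : ℝ) (hη : 0 < η) (m : ℕ) (ε : ℝ) (hε : 0 < ε) :
    ∃ σ : ℝ, 0 ≤ σ ∧ ∃ N₀ : ℕ, ∀ N : ℕ, N₀ ≤ N → ∀ k : Fin r → ℕ, (∀ j, N ≤ b j ^ k j ∧ b j ^ k j ≤ N ^ m) →
    ∀ w : Fin r → ℕ → ℕ → ℝ, (∀ j, Dig (b j) η (w j)) → ∀ c : Fin r → ℤ, (∀ j, |c j| ≤ (N : ℤ) ^ m) →
    ∑ n ∈ (OmV b k).filter (fun n => ¬ Big5 σ (eval (fun j => c j + (n j : ℤ)) A) (eval (fun j => c j + (n j : ℤ)) D)),
      PV b k w n ≤ ε := by
  obtain ⟨θ, hθ, N₁, hN₁, h1⟩ := coreD hr b hb η hη hD (Ω := ZP A D) hM (fun p ρ hρ => hρ.1) ε hε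
  obtain ⟨CA, mA, hCA, hA⟩ := growth A
  obtain ⟨CD, mD, hCD, hDg⟩ := growth D
  obtain ⟨N₂, hN₂⟩ := Filter.eventually_atTop.1
    (((tendsto_rpow_atTop hθ).comp (tendsto_natCast_atTop_atTop (R := ℝ))).eventually_ge_atTop 5)
  obtain ⟨C, hC⟩ : ∃ C, C = max CA CD := ⟨_, rfl⟩
  obtain ⟨m', hm'⟩ : ∃ m', m' = max mA mD := ⟨_, rfl⟩
  refine ⟨2 * (1 + m' + m * m') / θ, by positivity, max N₁ (max ⌈C⌉₊ (max N₂ 2)), fun N hN k hk w hw c hc => ?_⟩
  have hNN₁ : N₁ ≤ N := (le_max_left _ _).trans hN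
  have hN1 : 1 ≤ N := hN₁.trans hNN₁
  have hN2 : 2 ≤ N := (le_max_right _ _).trans ((le_max_right _ _).trans ((le_max_right _ _).trans hN))
  have hNN₂ : N₂ ≤ N := (le_max_left _ _).trans ((le_max_right _ _).trans ((le_max_right _ _).trans hN))
  have hNC : ⌈C⌉₊ ≤ N := (le_max_left _ _).trans ((le_max_right _ _).trans hN)
  have hN1R : (1 : ℝ) ≤ N := by exact_mod_cast hN1
  have hN2R : (2 : ℝ) ≤ N := by exact_mod_cast hN2
  have hN0 : (0 : ℝ) < N := by linarith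
  have hCN : C ≤ N := (Nat.le_ceil C).trans (by exact_mod_cast hNC)
  have hC1 : 1 ≤ C := by rw [hC]; exact hCA.trans (le_max_left _ _)
  have h5N : (5 : ℝ) ≤ (N : ℝ) ^ θ := hN₂ N hNN₂
  have h2 := h1 N hNN₁ k (fun j => (hk j).1) w hw c
  refine le_trans (sum_le_sum_of_subset_of_nonneg ?_ fun n _ _ => PV_nonneg hw n) h2
  intro n hn
  rw [mem_filter] at hn ⊢
  refine ⟨hn.1, ?_⟩
  rintro ⟨hc2, p, hp3, hpN, hpZ⟩
  apply hn.2
  have h5p : 5 ≤ p := by exact_mod_cast h5N.trans hpN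
  have hpZ' : aeval (fun i => ((fun j => c j + (n j : ℤ)) i : ZMod p)) D = 0 ∧
      aeval (fun i => ((fun j => c j + (n j : ℤ)) i : ZMod p)) A ≠ 0 := hpZ
  rw [eval_red, eval_red, ZMod.intCast_zmod_eq_zero_iff_dvd, Ne,
      ZMod.intCast_zmod_eq_zero_iff_dvd] at hpZ'
  obtain ⟨X, hX⟩ : ∃ X : ℝ, X = 2 * (N : ℝ) ^ m := ⟨_, rfl⟩
  have hNm : (1 : ℝ) ≤ (N : ℝ) ^ m := one_le_pow₀ hN1R
  have hX1 : 1 ≤ X := by rw [hX]; linarith
  have hv : ∀ j, |(((fun j => c j + (n j : ℤ)) j : ℤ) : ℝ)| ≤ X := by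
    intro j
    have h3 : n j < b j ^ k j := by
      have := hn.1
      unfold OmV at this
      rw [Fintype.mem_piFinset] at this
      exact mem_range.1 (this j)
    have h4 : (n j : ℝ) ≤ (N : ℝ) ^ m := by
      exact_mod_cast h3.le.trans (hk j).2
    have h5 : |((c j : ℤ) : ℝ)| ≤ (N : ℝ) ^ m := by
      have := hc j
      exact_mod_cast this
    push_cast
    refine (abs_add_le _ _).trans ?_
    rw [abs_of_nonneg (Nat.cast_nonneg _ : (0 : ℝ) ≤ (n j : ℝ)), hX]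
    linarith
  have hXm : ∀ q : ℕ, q ≤ m' → X ^ q ≤ X ^ m' := fun q hq => pow_le_pow_right₀ hX1 hq
  refine ⟨hc2, p, hp3, h5p, hpZ'.1, hpZ'.2, C * X ^ m', ?_, ?_, ?_⟩
  · refine (hA _ X hX1 hv).trans ?_
    exact mul_le_mul (by rw [hC]; exact le_max_left _ _) (hXm _ (by rw [hm']; exact le_max_left _ _)) (by positivity)
        (by linarith)
  · refine (hDg _ X hX1 hv).trans ?_
    exact mul_le_mul (by rw [hC]; exact le_max_right _ _) (hXm _ (by rw [hm']; exact le_max_right _ _)) (by positivity)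
        (by linarith)
  · have e1 : Real.log (C * X ^ m') ≤ (1 + m' + m * m') * Real.log N := by
      rw [hX, Real.log_mul (by positivity) (by positivity), Real.log_pow, Real.log_mul (by norm_num) (by positivity), Real.log_pow]
      have h3 := Real.log_le_log (by linarith) hCN
      have h4 := Real.log_le_log (by norm_num) hN2R
      have h5 : (m' : ℝ) * (Real.log 2 + m * Real.log N) ≤ m' * (Real.log N + m * Real.log N) :=
        mul_le_mul_of_nonneg_left (by linarith) (Nat.cast_nonneg _)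
      linarith
    have h6 : θ * Real.log N ≤ Real.log p := by
      rw [← Real.log_rpow hN0]
      exact Real.log_le_log (by positivity) hpN
    calc 2 * Real.log (C * X ^ m') ≤ 2 * ((1 + m' + m * m') * Real.log N) := by linarith
      _ = 2 * (1 + m' + m * m') / θ * (θ * Real.log N) := by field_simp
      _ ≤ 2 * (1 + m' + m * m') / θ * Real.log p := mul_le_mul_of_nonneg_left h6 (by positivity)

end Pool.Agent.J4.H78.DV
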