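import Pool.Agent.J4.H78.DV.Sieve

set_option autoImplicit false

/-! The sieve for vectors of integers with independent digits. -/

namespace Pool.Agent.J4.H78.DV
open Finset Filter
open Pool.Agent.H807R2.Dav
open Pool.Agent.TH872.Sq (Dig P P_nonneg P_sum ex_char)
open Pool.Agent.Y722.HS (red)

lemma sum_biUnion_le' {α β : Type} [DecidableEq β] (f : β → ℝ) (hf : ∀ b, 0 ≤ f b) (s : Finset α) (t : α → Finset β) :
    ∑ b ∈ s.biUnion t, f b ≤ ∑ a ∈ s, ∑ b ∈ t a, f b := by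
  classical
  induction s using Finset.induction_on with
  | empty => simp
  | insert a s ha ih =>
    rw [biUnion_insert, sum_insert ha]
    have h1 := sum_union_inter (s₁ := t a) (s₂ := s.biUnion t) (f := f)
    have h2 : 0 ≤ ∑ b ∈ t a ∩ s.biUnion t, f b := sum_nonneg fun b _ => hf b
    linarith

/-- the bad moduli for several bases at once -/
theorem goodV {r : ℕ} (b : Fin r → ℕ) (hb : ∀ j, 2 ≤ b j) (η : ℝ) (hη : 0 < η) (hη1 : η ≤ 1) (D B : ℕ) (hD : 1 ≤ D) :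
    ∃ W : ℕ, 1 ≤ W ∧ ∃ (S : Set ℕ) (C : ℝ), 0 < C ∧
    (∀ (M : ℕ) (T : Finset ℕ), (∀ m ∈ T, m ∈ S ∧ 1 ≤ m ∧ m ≤ M) → (T.card : ℝ) ≤ C * (M : ℝ) ^ (1 / (D : ℝ))) ∧
    ∀ (k : Fin r → ℕ) (x : ℕ), (∀ j, b j ≤ x) → (∀ j, x ^ W ≤ b j ^ k j) → ∀ w : Fin r → ℕ → ℕ → ℝ, (∀ j, Dig (b j) η (w j)) →
    ∀ m : ℕ, 1 ≤ m → m ≤ x ^ B → (∀ m' : ℕ, m' ∣ m → m' ≠ 1 → m' ∉ S) → (∀ j, Nat.Coprime (b j) m) → ∀ c : Fin r → ℤ,
      Wel (OmV b k) (PV b k w) (fun n j => c j + n j) m (r * (m * (1 / (x : ℝ) ^ B))) := by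
  classical
  choose W hW S C hC hS hgood using fun j => goodD (b j) (hb j) η hη hη1 D B hD
  refine ⟨1 + ∑ j, W j, by omega, {m | ∃ j, m ∈ S j}, 1 + ∑ j, C j, ?_, ?_, ?_⟩
  · have : 0 ≤ ∑ j, C j := sum_nonneg fun j _ => (hC j).le
    linarith
  · intro M T hT
    have h1 : T ⊆ univ.biUnion (fun j => T.filter (fun m => m ∈ S j)) := by
      intro m hm
      obtain ⟨j, hj⟩ := (hT m hm).1
      rw [mem_biUnion]
      exact ⟨j, mem_univ _, mem_filter.2 ⟨hm, hj⟩⟩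
    have h2 : (T.card : ℝ) ≤ ∑ j, ((T.filter (fun m => m ∈ S j)).card : ℝ) := by
      exact_mod_cast (card_le_card h1).trans card_biUnion_le
    refine h2.trans ?_
    have h3 : ∀ j ∈ (univ : Finset (Fin r)), ((T.filter (fun m => m ∈ S j)).card : ℝ) ≤ C j * (M : ℝ) ^ (1 / (D : ℝ)) := by
      intro j _
      apply hS j M
      intro m hm
      rw [mem_filter] at hm
      exact ⟨hm.2, (hT m hm.1).2⟩
    refine (sum_le_sum h3).trans ?_
    rw [← sum_mul]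
    apply mul_le_mul_of_nonneg_right _ (by positivity)
    linarith
  · intro k x hbx hxW w hw m hm hmx hmS hbm c
    have hm0 : (0 : ℝ) < m := by exact_mod_cast hm
    apply wel_vec hb hw c m hm
    intro j t
    refine dist_one (hb j) (hw j) (k j) m hm (1 / (x : ℝ) ^ B) ?_ (by positivity) (c j) t
    intro m' hm' h1 a ha
    have hx1 : 1 ≤ x := by
      have := hb j
      have := hbx j
      omega
    refine hgood j (k j) x (hbx j) ?_ (w j) (hw j) m' (Nat.pos_of_dvd_of_pos hm' hm) ((Nat.le_of_dvd hm hm').trans hmx) ?_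
      (Nat.Coprime.coprime_dvd_right hm' (hbm j)) a ha
    · refine le_trans (Nat.pow_le_pow_right hx1 ?_) (hxW j)
      have : W j ≤ ∑ j, W j := single_le_sum (f := W) (fun _ _ => Nat.zero_le _) (mem_univ j)
      omega
    · intro h2
      exact hmS m' hm' h1 ⟨j, h2⟩

open Classical in
/-- **The sieve.** Most vectors satisfy the local conditions at `T` large primes. -/
theorem sieve {r : ℕ} (hr : 1 ≤ r) (e : ℕ) (he : 1 ≤ e) (b : Fin r → ℕ) (hb : ∀ j, 2 ≤ b j) (η : ℝ) (hη : 0 < η)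
    (hη1 : η ≤ 1) (d : ℝ) (hd : 0 ≤ d) (δ C₁ : ℝ) (hδ : 0 < δ) (p₀ : ℕ) (T : ℝ) (ε : ℝ) (hε : 0 < ε) :
    ∃ θ κ : ℝ, 0 < θ ∧ θ < κ ∧ κ ≤ 1 ∧ ∃ N₀ : ℕ, ∀ N : ℕ, N₀ ≤ N → ∀ k : Fin r → ℕ, (∀ j, N ≤ b j ^ k j) →
    ∀ w : Fin r → ℕ → ℕ → ℝ, (∀ j, Dig (b j) η (w j)) → ∀ c : Fin r → ℤ, ∀ Ω : ∀ p : ℕ, Set (Fin r → ZMod (p ^ e)),
    (∀ p : ℕ, p.Prime → p₀ ≤ p → ((Ω p).ncard : ℝ) / ((p ^ e : ℕ) : ℝ) ^ r ≤ d / p) →
    (∀ y x : ℕ, p₀ ≤ y → y ≤ x → δ * (Real.log (Real.log x) - Real.log (Real.log y)) - C₁ ≤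
      ∑ p ∈ (Ioc y x).filter Nat.Prime, ((Ω p).ncard : ℝ) / ((p ^ e : ℕ) : ℝ) ^ r) →
    ∑ n ∈ (OmV b k).filter (fun n => (((Icc ⌈(N : ℝ) ^ θ⌉₊ ⌊(N : ℝ) ^ κ⌋₊).filter
      (fun p => p.Prime ∧ red (p ^ e) (fun j => c j + (n j : ℤ)) ∈ Ω p)).card : ℝ) < T), PV b k w n ≤ ε := by
  obtain ⟨B, hB⟩ : ∃ B : ℕ, B = 2 * e * (r + 1) + 4 := ⟨_, rfl⟩
  obtain ⟨W, hW, S, C, hC, hS, hgood⟩ := goodV b hb η hη hη1 (8 * e) B (by omega)
  have he0 : (0 : ℝ) < e := by exact_mod_cast he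
  have he1 : (1 : ℝ) ≤ e := by exact_mod_cast he
  have hW0 : (0 : ℝ) < W := by exact_mod_cast hW
  have hW1 : (1 : ℝ) ≤ W := by exact_mod_cast hW
  -- the tail of the sum over the bad moduli
  obtain ⟨s, hs⟩ : ∃ s : ℝ, s = 1 / (2 * e) := ⟨_, rfl⟩
  have hs0 : 0 < s := by rw [hs]; positivity
  obtain ⟨ν, hν⟩ : ∃ ν : ℝ, ν = 1 / (4 * (d + 1) * (e + 1) ^ 2) := ⟨_, rfl⟩
  have hν0 : 0 < ν := by rw [hν]; positivity
  obtain ⟨Y₁, hY₁⟩ := sparse_tail S C hC (8 * e) (by omega) hS s (by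
    rw [hs]
    push_cast
    apply one_div_lt_one_div_of_lt (by positivity)
    linarith) ν hν0
  -- the parameters
  obtain ⟨M₀, hM₀⟩ : ∃ M₀ : ℝ, M₀ = 1 + 24 / ε + 2 * |T| := ⟨_, rfl⟩
  have hM₀1 : 1 ≤ M₀ := by
    rw [hM₀]
    have : 0 ≤ 24 / ε := by positivity
    have := abs_nonneg T
    linarith
  have hM₀ε : 24 / ε ≤ M₀ := by
    rw [hM₀]
    have := abs_nonneg T
    linarith
  have hM₀T : T ≤ M₀ / 2 := by
    rw [hM₀]
    have : 0 ≤ 24 / ε := by positivity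
    have := le_abs_self T
    linarith
  obtain ⟨κ, hκ⟩ : ∃ κ : ℝ, κ = 1 / W := ⟨_, rfl⟩
  have hκ0 : 0 < κ := by rw [hκ]; positivity
  have hκ1 : κ ≤ 1 := by
    rw [hκ, div_le_one hW0]
    exact hW1
  obtain ⟨τ, hτ⟩ : ∃ τ : ℝ, τ = Real.exp (-((M₀ + 1 + |C₁|) / δ)) / 2 := ⟨_, rfl⟩
  have hτ0 : 0 < τ := by rw [hτ]; positivity
  have hτ1 : τ ≤ 1 / 2 := by
    rw [hτ]
    have : Real.exp (-((M₀ + 1 + |C₁|) / δ)) ≤ 1 := by
      rw [Real.exp_le_one_iff]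
      have : 0 ≤ (M₀ + 1 + |C₁|) / δ := by positivity
      linarith
    linarith
  have hlogτ : Real.log (1 / (2 * τ)) = (M₀ + 1 + |C₁|) / δ := by
    have : 2 * τ = Real.exp (-((M₀ + 1 + |C₁|) / δ)) := by rw [hτ]; ring
    rw [this, one_div, ← Real.exp_neg, neg_neg, Real.log_exp]
  obtain ⟨b₀, hb₀⟩ : ∃ b₀ : ℕ, b₀ = ∑ j, b j := ⟨_, rfl⟩
  have hbb₀ : ∀ j, b j ≤ b₀ := fun j => by
    rw [hb₀]
    exact single_le_sum (f := b) (fun _ _ => Nat.zero_le _) (mem_univ j)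
  obtain ⟨Y₀, hY₀⟩ : ∃ Y₀ : ℕ, Y₀ = Y₁ + p₀ + b₀ + r + 4 := ⟨_, rfl⟩
  refine ⟨τ * κ, κ, by positivity, by nlinarith, hκ1, ?_⟩
  -- large `N`
  have hlog := Real.tendsto_log_atTop.comp (tendsto_natCast_atTop_atTop (R := ℝ))
  have hpow : ∀ s : ℝ, 0 < s → Tendsto (fun N : ℕ => (N : ℝ) ^ s) atTop atTop := fun s hs =>
    (tendsto_rpow_atTop hs).comp tendsto_natCast_atTop_atTop
  have hev : ∀ᶠ N : ℕ in atTop, 1 ≤ N ∧ 2 * Real.log 2 / κ ≤ Real.log (N : ℝ) ∧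
      ((Y₀ : ℕ) : ℝ) ≤ (N : ℝ) ^ (τ * κ) := by
    filter_upwards [eventually_ge_atTop 1, hlog.eventually_ge_atTop (2 * Real.log 2 / κ),
      (hpow (τ * κ) (by positivity)).eventually_ge_atTop ((Y₀ : ℕ) : ℝ)] with N h1 h3 h4
    exact ⟨h1, h3, h4⟩
  obtain ⟨N₀, hN₀⟩ := eventually_atTop.1 hev
  refine ⟨N₀, fun N hN k hk w hw c Ω hΩ hmean => ?_⟩
  obtain ⟨hN1, hlogN, hYN⟩ := hN₀ N hN
  have hN1R : (1 : ℝ) ≤ N := by exact_mod_cast hN1
  have hN0 : (0 : ℝ) < N := by linarith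
  obtain ⟨X, hX⟩ : ∃ X : ℕ, X = ⌊(N : ℝ) ^ κ⌋₊ := ⟨_, rfl⟩
  obtain ⟨Y, hY⟩ : ∃ Y : ℕ, Y = ⌊(N : ℝ) ^ (τ * κ)⌋₊ := ⟨_, rfl⟩
  have hXle : (X : ℝ) ≤ (N : ℝ) ^ κ := by rw [hX]; exact Nat.floor_le (by positivity)
  have hYle : (Y : ℝ) ≤ (N : ℝ) ^ (τ * κ) := by rw [hY]; exact Nat.floor_le (by positivity)
  have hYgt : (N : ℝ) ^ (τ * κ) < Y + 1 := by rw [hY]; exact Nat.lt_floor_add_one _
  have hY₀Y : Y₀ ≤ Y := by rw [hY]; exact Nat.le_floor hYN
  have hYX : Y ≤ X := by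
    rw [hY, hX]
    exact Nat.floor_le_floor (Real.rpow_le_rpow_of_exponent_le hN1R (by nlinarith))
  have hX1 : 1 ≤ X := by omega
  have hXr : (1 : ℝ) ≤ X := by exact_mod_cast hX1
  have hX0 : (0 : ℝ) < X := by linarith
  have hXW : X ^ W ≤ N := by
    have h1 : ((X ^ W : ℕ) : ℝ) ≤ N := by
      push_cast
      calc (X : ℝ) ^ W ≤ ((N : ℝ) ^ κ) ^ W := pow_le_pow_left₀ hX0.le hXle W
        _ = N := by
            rw [← Real.rpow_natCast, ← Real.rpow_mul hN0.le, hκ, one_div_mul_cancel hW0.ne', Real.rpow_one]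
    exact_mod_cast h1
  have hlog2 : 0 < Real.log 2 := Real.log_pos (by norm_num)
  have hlN0 : 0 < Real.log N := lt_of_lt_of_le (by positivity) hlogN
  -- the logarithms
  have hlogX : (κ / 2) * Real.log N ≤ Real.log X := by
    have h4κ : (2 : ℝ) ≤ (N : ℝ) ^ κ := by
      have h1 : ((Y₀ : ℕ) : ℝ) ≤ X := by exact_mod_cast hY₀Y.trans hYX
      have h2 : (2 : ℝ) ≤ Y₀ := by exact_mod_cast (by omega : 2 ≤ Y₀)
      linarith
    have h1 : (N : ℝ) ^ κ / 2 ≤ X := by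
      have := Nat.sub_one_lt_floor ((N : ℝ) ^ κ)
      rw [← hX] at this
      linarith
    have h2 : Real.log ((N : ℝ) ^ κ / 2) ≤ Real.log X :=
      Real.log_le_log (by positivity) h1
    rw [Real.log_div (by positivity) (by norm_num), Real.log_rpow hN0] at h2
    rw [div_le_iff₀ hκ0] at hlogN
    linarith
  have hlogY : Real.log Y ≤ (τ * κ) * Real.log N := by
    rw [← Real.log_rpow hN0]
    exact Real.log_le_log (by exact_mod_cast (by omega : 0 < Y)) hYle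
  have hlogY0 : 0 < Real.log Y := Real.log_pos (by exact_mod_cast (by omega : 1 < Y))
  have hlogX0 : 0 < Real.log X := Real.log_pos (by exact_mod_cast (by omega : 1 < X))
  have hll : (M₀ + 1 + |C₁|) / δ ≤ Real.log (Real.log X) - Real.log (Real.log Y) := by
    rw [← hlogτ, ← Real.log_div hlogX0.ne' hlogY0.ne']
    apply Real.log_le_log (by positivity)
    rw [div_le_div_iff₀ (by positivity) hlogY0]
    calc 1 * Real.log Y ≤ (τ * κ) * Real.log N := by linarith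
      _ = (κ / 2 * Real.log N) * (2 * τ) := by ring
      _ ≤ Real.log X * (2 * τ) := mul_le_mul_of_nonneg_right hlogX (by positivity)
  -- the primes
  obtain ⟨m, hmdef⟩ : ∃ m : ℕ → ℝ, ∀ p, m p = ((Ω p).ncard : ℝ) / ((p ^ e : ℕ) : ℝ) ^ r := ⟨_, fun _ => rfl⟩
  have hm0 : ∀ p, 0 ≤ m p := fun p => by rw [hmdef]; positivity
  obtain ⟨A, hA⟩ : ∃ A : Finset ℕ, A = (Ioc Y X).filter Nat.Prime := ⟨_, rfl⟩
  have hAm : ∀ p ∈ A, Y < p ∧ p ≤ X ∧ p.Prime := fun p hp => by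
    rw [hA, mem_filter, mem_Ioc] at hp
    exact ⟨hp.1.1, hp.1.2, hp.2⟩
  obtain ⟨Q, hQ⟩ : ∃ Q : Finset ℕ, Q = A.filter (fun p => ∀ i ∈ Icc 1 e, p ^ i ∉ S) := ⟨_, rfl⟩
  have hQm : ∀ p ∈ Q, Y < p ∧ p ≤ X ∧ p.Prime ∧ ∀ i ∈ Icc 1 e, p ^ i ∉ S := fun p hp => by
    rw [hQ, mem_filter] at hp
    exact ⟨(hAm p hp.1).1, (hAm p hp.1).2.1, (hAm p hp.1).2.2, hp.2⟩
  -- the removed primes
  have hrem : ∑ p ∈ A.filter (fun p => ¬ ∀ i ∈ Icc 1 e, p ^ i ∉ S), m p ≤ 1 := by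
    have h1 : A.filter (fun p => ¬ ∀ i ∈ Icc 1 e, p ^ i ∉ S) ⊆ (Icc 1 e).biUnion (fun i => A.filter (fun p => p ^ i ∈ S)) := by
      intro p hp
      rw [mem_filter] at hp
      obtain ⟨hpA, h2⟩ := hp
      push Not at h2
      obtain ⟨i, hi, h3⟩ := h2
      rw [mem_biUnion]
      exact ⟨i, hi, mem_filter.2 ⟨hpA, h3⟩⟩
    refine (sum_le_sum_of_subset_of_nonneg h1 fun p _ _ => hm0 p).trans ?_
    refine (sum_biUnion_le' m (fun p => hm0 p) _ _).trans ?_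
    have h2 : ∀ i ∈ Icc 1 e, ∑ p ∈ A.filter (fun p => p ^ i ∈ S), m p ≤ d * ν := by
      intro i hi
      rw [mem_Icc] at hi
      have h3 : ∀ p ∈ A.filter (fun p => p ^ i ∈ S), m p ≤ d * ((p ^ i : ℕ) : ℝ) ^ (-s) := by
        intro p hp
        rw [mem_filter] at hp
        obtain ⟨hpY, hpX, hpp⟩ := hAm p hp.1
        have hp0 : (0 : ℝ) < p := by exact_mod_cast hpp.pos
        have hp1 : (1 : ℝ) ≤ p := by exact_mod_cast hpp.one_le
        rw [hmdef]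
        refine (hΩ p hpp (by omega)).trans ?_
        rw [div_eq_mul_inv]
        apply mul_le_mul_of_nonneg_left _ hd
        push_cast
        rw [← Real.rpow_natCast, ← Real.rpow_mul hp0.le, ← Real.rpow_neg_one]
        apply Real.rpow_le_rpow_of_exponent_le hp1
        have h4 : (i : ℝ) ≤ e := by exact_mod_cast hi.2
        have h5 : (i : ℝ) * s ≤ 1 := by
          rw [hs, mul_one_div, div_le_one (by positivity)]
          linarith
        linarith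
      refine (sum_le_sum h3).trans ?_
      rw [← mul_sum]
      apply mul_le_mul_of_nonneg_left _ hd
      have hinj : Set.InjOn (fun p : ℕ => p ^ i) (A.filter (fun p => p ^ i ∈ S)) := by
        intro p _ q _ h
        exact Nat.pow_left_injective (by omega) h
      rw [← sum_image (f := fun m : ℕ => (m : ℝ) ^ (-s)) (g := fun p => p ^ i) hinj]
      apply hY₁
      intro z hz
      obtain ⟨p, hp, rfl⟩ := mem_image.1 hz
      rw [mem_filter] at hp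
      refine ⟨hp.2, ?_⟩
      have h5 := (hAm p hp.1).1
      have h6 : p ≤ p ^ i := Nat.le_self_pow (by omega) p
      omega
    refine (sum_le_card_nsmul _ _ _ h2).trans ?_
    rw [Nat.card_Icc, Nat.add_sub_cancel, nsmul_eq_mul, hν, ← mul_assoc, mul_one_div, div_le_one (by positivity)]
    have h4 : (e : ℝ) * d ≤ (e + 1) ^ 2 * (d + 1) :=
      mul_le_mul (by nlinarith) (by linarith) hd (by positivity)
    have h5 : 0 ≤ ((e : ℝ) + 1) ^ 2 * (d + 1) := by positivity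
    linarith
  obtain ⟨μ, hμ⟩ : ∃ μ, μ = ∑ p ∈ Q, m p := ⟨_, rfl⟩
  have hμM : M₀ ≤ μ := by
    have h1 := hmean Y X (by omega) hYX
    have h2 : ∑ p ∈ A, m p = ∑ p ∈ (Ioc Y X).filter Nat.Prime, ((Ω p).ncard : ℝ) / ((p ^ e : ℕ) : ℝ) ^ r := by
      rw [hA]
      exact sum_congr rfl fun p _ => hmdef p
    rw [← h2] at h1
    have h3 : ∑ p ∈ A, m p = μ + ∑ p ∈ A.filter (fun p => ¬ ∀ i ∈ Icc 1 e, p ^ i ∉ S), m p := by
      rw [hμ, hQ, sum_filter_add_sum_filter_not]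
    rw [div_le_iff₀ hδ] at hll
    have h4 := le_abs_self C₁
    nlinarith
  have hμ1 : 1 ≤ μ := hM₀1.trans hμM
  have hμ0 : 0 < μ := by linarith
  -- the error terms
  obtain ⟨ε₁, hε₁⟩ : ∃ ε₁ : ℝ, ε₁ = 1 / (X : ℝ) ^ 2 := ⟨_, rfl⟩
  have hε₁0 : 0 ≤ ε₁ := by rw [hε₁]; positivity
  have hrX : (r : ℝ) ≤ X := by exact_mod_cast (by omega : r ≤ X)
  have herr : ∀ M : ℕ, 1 ≤ M → M ≤ X ^ (2 * e) → (M : ℝ) ^ r * (r * (M * (1 / (X : ℝ) ^ B))) ≤ ε₁ := by
    intro M hM hMX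
    have h1 : (M : ℝ) ≤ (X : ℝ) ^ (2 * e) := by exact_mod_cast hMX
    have hM0 : (0 : ℝ) ≤ M := Nat.cast_nonneg _
    calc (M : ℝ) ^ r * (r * (M * (1 / (X : ℝ) ^ B))) = (M : ℝ) ^ (r + 1) * (r / (X : ℝ) ^ B) := by ring
      _ ≤ ((X : ℝ) ^ (2 * e)) ^ (r + 1) * (X / (X : ℝ) ^ B) := by
          apply mul_le_mul (pow_le_pow_left₀ hM0 h1 _) _ (by positivity) (by positivity)
          exact div_le_div_of_nonneg_right hrX (by positivity)
      _ = (X : ℝ) ^ (2 * e * (r + 1) + 1) / (X : ℝ) ^ B := by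
          rw [← pow_mul, ← mul_div_assoc, ← pow_succ]
      _ ≤ ε₁ := by
          rw [hε₁, hB, div_le_div_iff₀ (by positivity) (by positivity), one_mul, ← pow_add]
          exact pow_le_pow_right₀ hXr (by omega)
  have hcop : ∀ p ∈ Q, ∀ i : ℕ, ∀ j, Nat.Coprime (b j) (p ^ i) := by
    intro p hp i j
    obtain ⟨h1, h2, h3, h4⟩ := hQm p hp
    apply Nat.Coprime.pow_right
    apply Nat.Coprime.symm
    rw [Nat.Prime.coprime_iff_not_dvd h3]
    intro h5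
    have h6 := Nat.le_of_dvd (by have := hb j; omega) h5
    have h7 := hbb₀ j
    omega
  have hbX : ∀ j, b j ≤ X := fun j => by
    have := hbb₀ j
    omega
  have hkX : ∀ j, X ^ W ≤ b j ^ k j := fun j => hXW.trans (hk j)
  obtain ⟨x, hx⟩ : ∃ x : (Fin r → ℕ) → Fin r → ℤ, x = fun n j => c j + (n j : ℤ) := ⟨_, rfl⟩
  -- one prime
  have hone : ∀ p ∈ Q, |∑ n ∈ OmV b k, PV b k w n * (if red (p ^ e) (x n) ∈ Ω p then 1 else 0) - m p| ≤ ε₁ := by
    intro p hp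
    obtain ⟨hpY, hpX, hpp, hpS⟩ := hQm p hp
    have : NeZero (p ^ e) := ⟨pow_ne_zero _ hpp.ne_zero⟩
    have hM1 : 1 ≤ p ^ e := Nat.one_le_pow _ _ hpp.pos
    have hMX : p ^ e ≤ X ^ (2 * e) := (Nat.pow_le_pow_left hpX e).trans (Nat.pow_le_pow_right hX1 (by omega))
    have h1 := hgood k X hbX hkX w hw (p ^ e) hM1 (hMX.trans (Nat.pow_le_pow_right hX1 (by
      rw [hB]
      nlinarith))) (by
        intro m' hm' hne
        obtain ⟨i, hi, rfl⟩ := (Nat.dvd_prime_pow hpp).1 hm'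
        apply hpS i
        rw [mem_Icc]
        refine ⟨?_, hi⟩
        rcases Nat.eq_zero_or_pos i with h | h
        · rw [h, pow_zero] at hne
          exact absurd rfl hne
        · exact h) (hcop p hp e) c
    have h2 := ev_one (by positivity) h1 (Ω p)
    rw [hmdef, hx]
    rw [Fintype.card_fin] at h2
    exact h2.trans (herr _ hM1 hMX)
  -- two primes
  have htwo : ∀ p ∈ Q, ∀ q ∈ Q, p ≠ q → ∑ n ∈ OmV b k, PV b k w n *
      ((if red (p ^ e) (x n) ∈ Ω p then 1 else 0) * (if red (q ^ e) (x n) ∈ Ω q then 1 else 0)) ≤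
      m p * m q + ε₁ + (if ∃ i ∈ Icc 1 e, ∃ l ∈ Icc 1 e, p ^ i * q ^ l ∈ S then d / √((p : ℝ) * q) else 0) := by
    intro p hp q hq hpq
    obtain ⟨hpY, hpX, hpp, hpS⟩ := hQm p hp
    obtain ⟨hqY, hqX, hqp, hqS⟩ := hQm q hq
    have hp0 : (0 : ℝ) < p := by exact_mod_cast hpp.pos
    have hq0 : (0 : ℝ) < q := by exact_mod_cast hqp.pos
    have : NeZero (p ^ e) := ⟨pow_ne_zero _ hpp.ne_zero⟩
    have : NeZero (q ^ e) := ⟨pow_ne_zero _ hqp.ne_zero⟩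
    have hcpq : Nat.Coprime (p ^ e) (q ^ e) := Nat.Coprime.pow _ _ ((Nat.coprime_primes hpp hqp).2 hpq)
    by_cases hbad : ∃ i ∈ Icc 1 e, ∃ l ∈ Icc 1 e, p ^ i * q ^ l ∈ S
    · rw [if_pos hbad]
      have hle : ∀ u ∈ Q, (∀ n, ((if red (p ^ e) (x n) ∈ Ω p then (1 : ℝ) else 0) * (if red (q ^ e) (x n) ∈ Ω q then 1 else 0)) ≤
          if red (u ^ e) (x n) ∈ Ω u then 1 else 0) → ∑ n ∈ OmV b k, PV b k w n *
          ((if red (p ^ e) (x n) ∈ Ω p then 1 else 0) * (if red (q ^ e) (x n) ∈ Ω q then 1 else 0)) ≤ d / u + ε₁ := by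
        intro u hu hu'
        obtain ⟨huY, huX, hup, huS⟩ := hQm u hu
        have h1 := (abs_le.1 (hone u hu)).2
        have h2 := hΩ u hup (by omega)
        rw [← hmdef] at h2
        calc _ ≤ ∑ n ∈ OmV b k, PV b k w n * (if red (u ^ e) (x n) ∈ Ω u then 1 else 0) :=
              sum_le_sum fun n _ => mul_le_mul_of_nonneg_left (hu' n) (PV_nonneg hw n)
          _ ≤ _ := by linarith
      have h1 := hle p hp (fun n => by split_ifs <;> norm_num)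
      have h2 := hle q hq (fun n => by split_ifs <;> norm_num)
      have h3 : 0 ≤ m p * m q := mul_nonneg (hm0 p) (hm0 q)
      rcases le_total p q with hle' | hle'
      · have h4 : d / q ≤ d / √((p : ℝ) * q) := by
          apply div_le_div_of_nonneg_left hd (Real.sqrt_pos.2 (by positivity))
          have h5 : (p : ℝ) ≤ q := by exact_mod_cast hle'
          calc √((p : ℝ) * q) ≤ √((q : ℝ) * q) := Real.sqrt_le_sqrt (mul_le_mul_of_nonneg_right h5 hq0.le)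
            _ = q := Real.sqrt_mul_self hq0.le
        linarith
      · have h4 : d / p ≤ d / √((p : ℝ) * q) := by
          apply div_le_div_of_nonneg_left hd (Real.sqrt_pos.2 (by positivity))
          have h5 : (q : ℝ) ≤ p := by exact_mod_cast hle'
          calc √((p : ℝ) * q) ≤ √((p : ℝ) * p) := Real.sqrt_le_sqrt (mul_le_mul_of_nonneg_left h5 hp0.le)
            _ = p := Real.sqrt_mul_self hp0.le
        linarith
    · rw [if_neg hbad, add_zero]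
      push Not at hbad
      have hM1 : 1 ≤ p ^ e * q ^ e := Nat.mul_pos (Nat.one_le_pow _ _ hpp.pos) (Nat.one_le_pow _ _ hqp.pos)
      have hMX : p ^ e * q ^ e ≤ X ^ (2 * e) := by
        calc p ^ e * q ^ e ≤ X ^ e * X ^ e := Nat.mul_le_mul (Nat.pow_le_pow_left hpX e) (Nat.pow_le_pow_left hqX e)
          _ = X ^ (2 * e) := by ring
      have h1 := hgood k X hbX hkX w hw (p ^ e * q ^ e) hM1 (hMX.trans (Nat.pow_le_pow_right hX1 (by
        rw [hB]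
        nlinarith))) (by
          intro m' hm' hne
          obtain ⟨u, v, hu, hv, rfl⟩ := exists_dvd_and_dvd_of_dvd_mul hm'
          obtain ⟨i, hi, rfl⟩ := (Nat.dvd_prime_pow hpp).1 hu
          obtain ⟨l, hl, rfl⟩ := (Nat.dvd_prime_pow hqp).1 hv
          rcases Nat.eq_zero_or_pos i with h | h
          · rw [h, pow_zero, one_mul] at hne ⊢
            rcases Nat.eq_zero_or_pos l with h' | h'
            · rw [h', pow_zero] at hne
              exact absurd rfl hne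
            · exact hqS l (mem_Icc.2 ⟨h', hl⟩)
          · rcases Nat.eq_zero_or_pos l with h' | h'
            · rw [h', pow_zero, mul_one]
              exact hpS i (mem_Icc.2 ⟨h, hi⟩)
            · exact hbad i (mem_Icc.2 ⟨h, hi⟩) l (mem_Icc.2 ⟨h', hl⟩)) (fun j =>
            Nat.Coprime.mul_right (hcop p hp e j) (hcop q hq e j)) c
      have h2 := ev_two (by positivity) hcpq h1 (Ω p) (Ω q)
      rw [Fintype.card_fin] at h2
      rw [hmdef, hmdef, hx]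
      refine h2.trans ?_
      have h3 := herr _ hM1 hMX
      linarith
  -- the sum over the bad pairs
  have hpairs : ∑ p ∈ Q, ∑ q ∈ Q, (if p = q then 0 else
      (if ∃ i ∈ Icc 1 e, ∃ l ∈ Icc 1 e, p ^ i * q ^ l ∈ S then d / √((p : ℝ) * q) else 0)) ≤ 1 := by
    have h1 : ∀ p ∈ Q, ∀ q ∈ Q, (if p = q then 0 else
        (if ∃ i ∈ Icc 1 e, ∃ l ∈ Icc 1 e, p ^ i * q ^ l ∈ S then d / √((p : ℝ) * q) else 0)) ≤
        ∑ i ∈ Icc 1 e, ∑ l ∈ Icc 1 e, (if p ≠ q ∧ p ^ i * q ^ l ∈ S then d * ((p ^ i * q ^ l : ℕ) : ℝ) ^ (-s) else 0) := by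
      intro p hp q hq
      obtain ⟨hpY, hpX, hpp, hpS⟩ := hQm p hp
      obtain ⟨hqY, hqX, hqp, hqS⟩ := hQm q hq
      have hp0 : (0 : ℝ) < p := by exact_mod_cast hpp.pos
      have hq0 : (0 : ℝ) < q := by exact_mod_cast hqp.pos
      have hnn : ∀ i ∈ Icc 1 e, ∀ l ∈ Icc 1 e, 0 ≤ (if p ≠ q ∧ p ^ i * q ^ l ∈ S then d * ((p ^ i * q ^ l : ℕ) : ℝ) ^ (-s) else 0) := by
        intro i _ l _
        split_ifs
        · positivity
        · exact le_refl _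
      have hnn2 : 0 ≤ ∑ i ∈ Icc 1 e, ∑ l ∈ Icc 1 e, (if p ≠ q ∧ p ^ i * q ^ l ∈ S then d * ((p ^ i * q ^ l : ℕ) : ℝ) ^ (-s) else 0) :=
        sum_nonneg fun i hi => sum_nonneg fun l hl => hnn i hi l hl
      by_cases hpq : p = q
      · rw [if_pos hpq]
        exact hnn2
      · rw [if_neg hpq]
        by_cases hbad : ∃ i ∈ Icc 1 e, ∃ l ∈ Icc 1 e, p ^ i * q ^ l ∈ S
        · rw [if_pos hbad]
          obtain ⟨i, hi, l, hl, h2⟩ := hbad
          have h3 : (if p ≠ q ∧ p ^ i * q ^ l ∈ S then d * ((p ^ i * q ^ l : ℕ) : ℝ) ^ (-s) else 0) ≤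
              ∑ l ∈ Icc 1 e, (if p ≠ q ∧ p ^ i * q ^ l ∈ S then d * ((p ^ i * q ^ l : ℕ) : ℝ) ^ (-s) else 0) :=
            single_le_sum (f := fun l => if p ≠ q ∧ p ^ i * q ^ l ∈ S then d * ((p ^ i * q ^ l : ℕ) : ℝ) ^ (-s) else 0)
              (fun l hl => hnn i hi l hl) hl
          have h4 : ∑ l ∈ Icc 1 e, (if p ≠ q ∧ p ^ i * q ^ l ∈ S then d * ((p ^ i * q ^ l : ℕ) : ℝ) ^ (-s) else 0) ≤
              ∑ i ∈ Icc 1 e, ∑ l ∈ Icc 1 e, (if p ≠ q ∧ p ^ i * q ^ l ∈ S then d * ((p ^ i * q ^ l : ℕ) : ℝ) ^ (-s) else 0) :=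
            single_le_sum (f := fun i => ∑ l ∈ Icc 1 e, if p ≠ q ∧ p ^ i * q ^ l ∈ S then d * ((p ^ i * q ^ l : ℕ) : ℝ) ^ (-s) else 0)
              (fun i hi => sum_nonneg fun l hl => hnn i hi l hl) hi
          rw [if_pos ⟨hpq, h2⟩] at h3
          refine le_trans ?_ (h3.trans h4)
          rw [div_eq_mul_inv]
          apply mul_le_mul_of_nonneg_left _ hd
          rw [mem_Icc] at hi hl
          have h5 : ((p ^ i * q ^ l : ℕ) : ℝ) ≤ ((p : ℝ) * q) ^ e := by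
            push_cast
            rw [mul_pow]
            exact mul_le_mul (pow_le_pow_right₀ (by exact_mod_cast hpp.one_le) hi.2)
              (pow_le_pow_right₀ (by exact_mod_cast hqp.one_le) hl.2) (by positivity) (by positivity)
          have h6 : (√((p : ℝ) * q))⁻¹ = (((p : ℝ) * q) ^ e) ^ (-s) := by
            rw [Real.sqrt_eq_rpow, ← Real.rpow_neg (by positivity), ← Real.rpow_natCast, ← Real.rpow_mul (by positivity)]
            congr 1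
            rw [hs]
            field_simp
          rw [h6]
          apply Real.rpow_le_rpow_of_nonpos _ h5 (by linarith)
          have : 0 < p ^ i * q ^ l := Nat.mul_pos (Nat.pow_pos hpp.pos) (Nat.pow_pos hqp.pos)
          exact_mod_cast this
        · rw [if_neg hbad]
          exact hnn2
    refine (sum_le_sum fun p hp => sum_le_sum fun q hq => h1 p hp q hq).trans ?_
    have h2 : ∑ p ∈ Q, ∑ q ∈ Q, ∑ i ∈ Icc 1 e, ∑ l ∈ Icc 1 e,
        (if p ≠ q ∧ p ^ i * q ^ l ∈ S then d * ((p ^ i * q ^ l : ℕ) : ℝ) ^ (-s) else 0) =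
        ∑ i ∈ Icc 1 e, ∑ l ∈ Icc 1 e, ∑ p ∈ Q, ∑ q ∈ Q,
        (if p ≠ q ∧ p ^ i * q ^ l ∈ S then d * ((p ^ i * q ^ l : ℕ) : ℝ) ^ (-s) else 0) := by
      rw [sum_congr rfl (fun p _ => sum_comm)]
      rw [sum_comm]
      apply sum_congr rfl
      intro i _
      rw [sum_congr rfl (fun p _ => sum_comm)]
      rw [sum_comm]
    rw [h2]
    have h3 : ∀ i ∈ Icc 1 e, ∀ l ∈ Icc 1 e, ∑ p ∈ Q, ∑ q ∈ Q,
        (if p ≠ q ∧ p ^ i * q ^ l ∈ S then d * ((p ^ i * q ^ l : ℕ) : ℝ) ^ (-s) else 0) ≤ 4 * (d * ν) := by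
      intro i hi l hl
      rw [mem_Icc] at hi hl
      refine (pairs_pow Q (fun p hp => (hQm p hp).2.2.1) S i l hi.1 hl.1 (fun m => d * (m : ℝ) ^ (-s))
        (fun m => by positivity)).trans ?_
      apply mul_le_mul_of_nonneg_left _ (by norm_num)
      rw [← mul_sum]
      apply mul_le_mul_of_nonneg_left _ hd
      apply hY₁
      intro z hz
      obtain ⟨y, hy, rfl⟩ := mem_image.1 hz
      rw [mem_filter, mem_product] at hy
      refine ⟨hy.2.2, ?_⟩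
      have h5 := (hQm _ hy.1.1).1
      have h6 : y.1 ≤ y.1 ^ i := Nat.le_self_pow (by omega) _
      have h7 : 0 < y.2 ^ l := Nat.pow_pos (hQm _ hy.1.2).2.2.1.pos
      have h8 : y.1 ^ i * 1 ≤ y.1 ^ i * y.2 ^ l := Nat.mul_le_mul_left _ h7
      omega
    refine (sum_le_sum fun i hi => sum_le_sum fun l hl => h3 i hi l hl).trans ?_
    rw [sum_const, sum_const, Nat.card_Icc, Nat.add_sub_cancel, nsmul_eq_mul, nsmul_eq_mul, hν]
    have h9 : (e : ℝ) * (e * (4 * (d * (1 / (4 * (d + 1) * (e + 1) ^ 2))))) = (e ^ 2 * d) / ((d + 1) * (e + 1) ^ 2) := by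
      field_simp
    rw [h9, div_le_one (by positivity), mul_comm]
    exact mul_le_mul (by linarith) (by nlinarith) (by positivity) (by positivity)
  -- Turan's inequality
  have hturan := turan_avg (OmV b k) (PV b k w) (fun n _ => PV_nonneg hw n) (PV_sum hb hw) Q
    (fun p n => if red (p ^ e) (x n) ∈ Ω p then (1 : ℝ) else 0) (fun p _ n _ => by
      by_cases h : red (p ^ e) (x n) ∈ Ω p
      · right; exact if_pos h
      · left; exact if_neg h) m ε₁ hε₁0 hone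
    (fun p q => if ∃ i ∈ Icc 1 e, ∃ l ∈ Icc 1 e, p ^ i * q ^ l ∈ S then d / √((p : ℝ) * q) else 0)
    (fun p q => by
      split_ifs
      · positivity
      · exact le_refl _) htwo μ hμ hμ0 (fun p _ => hm0 p) T (hM₀T.trans (by linarith))
  have hQc : (Q.card : ℝ) ≤ X := by
    have h1 : Q ⊆ Icc 1 X := by
      intro p hp
      rw [mem_Icc]
      exact ⟨(hQm p hp).2.2.1.one_le, (hQm p hp).2.1⟩
    have h2 := card_le_card h1
    rw [Nat.card_Icc, Nat.add_sub_cancel] at h2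
    exact_mod_cast h2
  have hQc0 : (0 : ℝ) ≤ Q.card := Nat.cast_nonneg _
  have hE2 : (Q.card : ℝ) ^ 2 * ε₁ ≤ 1 := by
    rw [hε₁, mul_one_div, div_le_one (by positivity)]
    exact pow_le_pow_left₀ hQc0 hQc 2
  have hE1 : (Q.card : ℝ) * ε₁ ≤ 1 := by
    rw [hε₁, mul_one_div, div_le_one (by positivity)]
    nlinarith
  have hfin : 4 / μ ^ 2 * (μ + Q.card * ε₁ + (Q.card : ℝ) ^ 2 * ε₁ + 2 * μ * (Q.card * ε₁) +
      ∑ p ∈ Q, ∑ q ∈ Q, if p = q then 0 else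
        (if ∃ i ∈ Icc 1 e, ∃ l ∈ Icc 1 e, p ^ i * q ^ l ∈ S then d / √((p : ℝ) * q) else 0)) ≤ ε := by
    have h1 : μ + Q.card * ε₁ + (Q.card : ℝ) ^ 2 * ε₁ + 2 * μ * (Q.card * ε₁) +
      (∑ p ∈ Q, ∑ q ∈ Q, if p = q then 0 else
        (if ∃ i ∈ Icc 1 e, ∃ l ∈ Icc 1 e, p ^ i * q ^ l ∈ S then d / √((p : ℝ) * q) else 0)) ≤ 6 * μ := by
      have h2 : 2 * μ * (Q.card * ε₁) ≤ 2 * μ * 1 := mul_le_mul_of_nonneg_left hE1 (by positivity)
      nlinarith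
    calc _ ≤ 4 / μ ^ 2 * (6 * μ) := mul_le_mul_of_nonneg_left h1 (by positivity)
      _ = 24 / μ := by field_simp; ring
      _ ≤ ε := by
          rw [div_le_iff₀ hμ0]
          have h2 := hM₀ε.trans hμM
          rw [div_le_iff₀ hε] at h2
          linarith
  refine le_trans ?_ (hturan.trans hfin)
  apply sum_le_sum_of_subset_of_nonneg
  · intro n hn
    rw [mem_filter] at hn ⊢
    refine ⟨hn.1, lt_of_le_of_lt ?_ hn.2⟩
    rw [sum_boole]
    have h1 : Q.filter (fun p => red (p ^ e) (x n) ∈ Ω p) ⊆ (Icc ⌈(N : ℝ) ^ (τ * κ)⌉₊ ⌊(N : ℝ) ^ κ⌋₊).filter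
        (fun p => p.Prime ∧ red (p ^ e) (fun j => c j + (n j : ℤ)) ∈ Ω p) := by
      intro p hp
      rw [mem_filter] at hp
      obtain ⟨h2, h3, h4, h5⟩ := hQm p hp.1
      rw [mem_filter, mem_Icc, ← hX]
      refine ⟨⟨?_, h3⟩, h4, ?_⟩
      · rw [Nat.ceil_le]
        have : ((Y + 1 : ℕ) : ℝ) ≤ p := by exact_mod_cast h2
        push_cast at this
        linarith
      · have := hp.2
        rw [hx] at this
        exact this
    exact_mod_cast card_le_card h1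
  · intro n _ _
    exact PV_nonneg hw n

end Pool.Agent.J4.H78.DV
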