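import Pool.Agent.J4.H78.DV.Poly
import Pool.Agent.TH894.NI5

set_option autoImplicit false

/-! Rational functions of one variable with a pole have many poles in the mean. -/

namespace Pool.Agent.J4.H78.DV
open Finset Filter Polynomial
open Pool.Agent.H474R2.PG (rho Sg PR)
open Pool.Agent.N141.TS (MeanPoles ZP eval_red)

/-- a polynomial of one variable as a polynomial of several variables -/
noncomputable def emb (A : ℤ[X]) : MvPolynomial (Fin 1) ℤ := Polynomial.aeval (MvPolynomial.X 0) A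

lemma eval_emb (A : ℤ[X]) (v : Fin 1 → ℤ) : MvPolynomial.eval v (emb A) = A.eval (v 0) := by
  unfold emb
  have h := Polynomial.hom_eval₂ A (algebraMap ℤ (MvPolynomial (Fin 1) ℤ)) (MvPolynomial.eval v) (MvPolynomial.X 0)
  rw [← Polynomial.aeval_def] at h
  rw [h, MvPolynomial.eval_X]
  have e : ((MvPolynomial.eval v).comp (algebraMap ℤ (MvPolynomial (Fin 1) ℤ))) = RingHom.id ℤ := RingHom.ext_int _ _
  rw [e]
  rfl

lemma Sg_split (f : ℕ → ℕ) (y x : ℕ) (hyx : y ≤ x) :
    Sg f x = Sg f y + ∑ p ∈ (Ioc y x).filter Nat.Prime, (f p : ℝ) / p := by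
  unfold Sg PR
  rw [Nat.floor_natCast, Nat.floor_natCast, ← Finset.sum_union]
  · congr 1
    ext p
    simp only [Finset.mem_filter, Finset.mem_Icc, Finset.mem_Ioc, Finset.mem_union]
    constructor
    · rintro ⟨⟨h1, h2⟩, h3⟩
      rcases le_or_gt p y with h4 | h4
      · exact Or.inl ⟨⟨h1, h4⟩, h3⟩
      · exact Or.inr ⟨⟨h4, h2⟩, h3⟩
    · rintro (⟨⟨h1, h2⟩, h3⟩ | ⟨⟨h1, h2⟩, h3⟩)
      · exact ⟨⟨h1, by omega⟩, h3⟩
      · exact ⟨⟨by omega, h2⟩, h3⟩
  · rw [Finset.disjoint_left]
    intro p hp hp'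
    rw [Finset.mem_filter, Finset.mem_Icc] at hp
    rw [Finset.mem_filter, Finset.mem_Ioc] at hp'
    omega

theorem mean_one (A D P : ℤ[X]) (hP : Irreducible P) (hd : 0 < P.natDegree) (hPD : P ∣ D) (hPA : ¬ P ∣ A) :
    MeanPoles (emb A) (emb D) := by
  classical
  obtain ⟨R, hR⟩ := Pool.Agent.TH894.NI.consts P A hP hd hPA
  obtain ⟨C, hC, hmert⟩ := Pool.Agent.H474R2.GE.mertens_rho P hP hd
  obtain ⟨H, hH⟩ := hPD
  refine ⟨1, 2 * C + R, one_pos, fun y x hy hyx => ?_⟩
  have h1 : ∀ p ∈ (Ioc y x).filter Nat.Prime, (rho P p : ℝ) / p - (if p ≤ R then 1 else 0) ≤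
      ((ZP (emb A) (emb D) p).ncard : ℝ) / (p : ℝ) ^ 1 := by
    intro p hp
    rw [mem_filter, mem_Ioc] at hp
    have hp0 : (0 : ℝ) < p := by exact_mod_cast hp.2.pos
    split_ifs with hpR
    · have h2 : (rho P p : ℝ) ≤ p := by
        unfold rho
        have := card_filter_le (range p) (fun a : ℕ => (p : ℤ) ∣ P.eval (a : ℤ))
        rw [card_range] at this
        exact_mod_cast this
      have h3 : (rho P p : ℝ) / p ≤ 1 := by rw [div_le_one hp0]; exact h2
      have h4 : 0 ≤ ((ZP (emb A) (emb D) p).ncard : ℝ) / (p : ℝ) ^ 1 := by positivity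
      linarith
    · rw [sub_zero, pow_one]
      apply div_le_div_of_nonneg_right _ hp0.le
      have : NeZero p := ⟨hp.2.ne_zero⟩
      have h2 : ((fun (a : ℕ) (_ : Fin 1) => (a : ZMod p)) '' ((range p).filter (fun a : ℕ => (p : ℤ) ∣ P.eval (a : ℤ)) : Finset ℕ)) ⊆
          ZP (emb A) (emb D) p := by
        rintro _ ⟨a, ha, rfl⟩
        rw [mem_coe, mem_filter] at ha
        have h3 := hR p hp.2 (by omega) a ha.2
        have h4 : ∀ F : ℤ[X], MvPolynomial.aeval (fun _ : Fin 1 => (a : ZMod p)) (emb F) = ((F.eval (a : ℤ) : ℤ) : ZMod p) := by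
          intro F
          have h5 := eval_red (emb F) p (fun _ => (a : ℤ))
          rw [eval_emb] at h5
          rw [← h5]
          congr 2
          funext i
          push_cast
          rfl
        refine ⟨?_, ?_⟩
        · rw [h4, ZMod.intCast_zmod_eq_zero_iff_dvd, hH, eval_mul]
          exact Dvd.dvd.mul_right ha.2 _
        · rw [h4, Ne, ZMod.intCast_zmod_eq_zero_iff_dvd]
          exact h3.1
      have h3 := Set.ncard_le_ncard h2 (Set.toFinite _)
      rw [Set.InjOn.ncard_image, Set.ncard_coe_finset] at h3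
      · unfold rho
        exact_mod_cast h3
      · intro a ha a' ha' h
        rw [mem_coe, mem_filter, mem_range] at ha ha'
        have h4 := congrFun h 0
        have h5 := congrArg ZMod.val h4
        rwa [ZMod.val_natCast_of_lt ha.1, ZMod.val_natCast_of_lt ha'.1] at h5
  refine le_trans ?_ (sum_le_sum h1)
  rw [sum_sub_distrib]
  have h2 : ∑ p ∈ (Ioc y x).filter Nat.Prime, (if p ≤ R then (1 : ℝ) else 0) ≤ R := by
    rw [← Finset.sum_filter, Finset.sum_const, nsmul_eq_mul, mul_one]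
    have h3 : (((Ioc y x).filter Nat.Prime).filter fun p => p ≤ R) ⊆ Icc 1 R := by
      intro p hp
      rw [Finset.mem_filter, Finset.mem_filter, Finset.mem_Ioc] at hp
      rw [Finset.mem_Icc]
      omega
    have h4 := Finset.card_le_card h3
    rw [Nat.card_Icc] at h4
    exact_mod_cast (by omega : (((Ioc y x).filter Nat.Prime).filter fun p => p ≤ R).card ≤ R)
  have h3 := Sg_split (rho P) y x hyx
  have h4 := (abs_le.1 (hmert x (by exact_mod_cast hy.trans hyx))).1
  have h5 := (abs_le.1 (hmert y (by exact_mod_cast hy))).2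
  linarith

lemma emb_ne (D : ℤ[X]) (hD : D ≠ 0) : emb D ≠ 0 := by
  intro h
  apply hD
  apply Polynomial.funext
  intro t
  have h1 := eval_emb D (fun _ => t)
  rw [h, map_zero] at h1
  rw [Polynomial.eval_zero]
  exact h1.symm

end Pool.Agent.J4.H78.DV
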