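import Pool.Agent.J4.H78.DV.Main
import Pool.Agent.N141.TS.Wei

set_option autoImplicit false

/-! Large prime divisors of the values of polynomials at vectors of integers with independent digits. -/

namespace Pool.Agent.J4.H78.DV
open Finset Filter MvPolynomial
open Pool.Agent.TH872.Sq (Dig P P_nonneg P_sum ex_char)
open Pool.Agent.Y722.HS (red)
open Pool.Agent.N141.TS (MeanSet few_zeros eval_red)

/-- Mertens -/
theorem mertens_low : ∃ C : ℝ, 0 ≤ C ∧ ∀ y x : ℕ, 3 ≤ y → y ≤ x →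
    Real.log (Real.log x) - Real.log (Real.log y) - C ≤ ∑ p ∈ (Ioc y x).filter Nat.Prime, (1 : ℝ) / p := by
  classical
  obtain ⟨C, hC⟩ := Pool.Agent.Erdos456.Mert.mertens_inv
  refine ⟨2 * |C|, by positivity, fun y x hy hyx => ?_⟩
  have hsplit : ∑ p ∈ (Icc 1 x).filter Nat.Prime, (1 : ℝ) / p =
      ∑ p ∈ (Icc 1 y).filter Nat.Prime, (1 : ℝ) / p +
      ∑ p ∈ (Ioc y x).filter Nat.Prime, (1 : ℝ) / p := by
    rw [← Finset.sum_union]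
    · congr 1
      ext p
      simp only [Finset.mem_filter, Finset.mem_Icc, Finset.mem_Ioc, Finset.mem_union]
      constructor
      · rintro ⟨⟨h1, h2⟩, h3⟩
        rcases le_or_gt p y with h4 | h4
        · exact Or.inl ⟨⟨h1, h4⟩, h3⟩
        · exact Or.inr ⟨⟨h4, h2⟩, h3⟩
      · rintro (⟨⟨h1, h2⟩, h3⟩ | ⟨⟨h1, h2⟩, h3⟩)
        · exact ⟨⟨h1, by omega⟩, h3⟩
        · exact ⟨⟨by omega, h2⟩, h3⟩
    · rw [Finset.disjoint_left]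
      intro p hp hp'
      rw [Finset.mem_filter, Finset.mem_Icc] at hp
      rw [Finset.mem_filter, Finset.mem_Ioc] at hp'
      omega
  have hx := (abs_le.1 (hC x (by omega))).1
  have hy' := (abs_le.1 (hC y hy)).2
  have := le_abs_self C
  linarith

/-- the laws are monotone in the parameter -/
lemma dig_min {b : ℕ} {η η' : ℝ} {w : ℕ → ℕ → ℝ} (h : Dig b η w) (hle : η' ≤ η) : Dig b η' w :=
  ⟨h.nonneg, h.sum, fun i a => (h.le i a).trans (by linarith)⟩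

open Classical in
/-- the sieve with prime moduli -/
theorem sieve1 {r : ℕ} (hr : 1 ≤ r) (b : Fin r → ℕ) (hb : ∀ j, 2 ≤ b j) (η : ℝ) (hη : 0 < η)
    (d : ℝ) (hd : 0 ≤ d) (δ C₁ : ℝ) (hδ : 0 < δ) (p₀ : ℕ) (ε : ℝ) (hε : 0 < ε) :
    ∃ θ : ℝ, 0 < θ ∧ ∃ N₀ : ℕ, ∀ N : ℕ, N₀ ≤ N → ∀ k : Fin r → ℕ, (∀ j, N ≤ b j ^ k j) →
    ∀ w : Fin r → ℕ → ℕ → ℝ, (∀ j, Dig (b j) η (w j)) → ∀ c : Fin r → ℤ, ∀ Ω : ∀ p : ℕ, Set (Fin r → ZMod p),
    (∀ p : ℕ, p.Prime → p₀ ≤ p → ((Ω p).ncard : ℝ) / (p : ℝ) ^ r ≤ d / p) →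
    (∀ y x : ℕ, p₀ ≤ y → y ≤ x → δ * (Real.log (Real.log x) - Real.log (Real.log y)) - C₁ ≤
      ∑ p ∈ (Ioc y x).filter Nat.Prime, ((Ω p).ncard : ℝ) / (p : ℝ) ^ r) →
    ∑ n ∈ (OmV b k).filter (fun n => ¬ ∃ p : ℕ, p.Prime ∧ (N : ℝ) ^ θ ≤ p ∧
      red p (fun j => c j + (n j : ℤ)) ∈ Ω p), PV b k w n ≤ ε := by
  obtain ⟨θ, κ, hθ, hθκ, hκ1, N₀, h⟩ := sieve hr 1 le_rfl b hb (min η 1) (lt_min hη one_pos) (min_le_right _ _)
    d hd δ C₁ hδ p₀ 1 ε hε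
  refine ⟨θ, hθ, N₀, fun N hN k hk w hw c Ω hΩ hmean => ?_⟩
  have e1 : ∀ p : ℕ, ((Ω (p ^ 1)).ncard : ℝ) / ((p ^ 1 : ℕ) : ℝ) ^ r = ((Ω p).ncard : ℝ) / (p : ℝ) ^ r := fun p =>
    congrArg (fun m : ℕ => ((Ω m).ncard : ℝ) / (m : ℝ) ^ r) (pow_one p)
  have h1 := h N hN k hk w (fun j => dig_min (hw j) (min_le_left _ _)) c (fun p => Ω (p ^ 1)) (by
    intro p hp hpp
    rw [e1]
    exact hΩ p hp hpp) (by
    intro y x hy hyx
    refine (hmean y x hy hyx).trans (le_of_eq ?_)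
    exact sum_congr rfl fun p _ => (e1 p).symm)
  refine le_trans (sum_le_sum_of_subset_of_nonneg ?_ fun n _ _ => PV_nonneg hw n) h1
  intro n hn
  rw [mem_filter] at hn ⊢
  refine ⟨hn.1, ?_⟩
  have h2 : (Icc ⌈(N : ℝ) ^ θ⌉₊ ⌊(N : ℝ) ^ κ⌋₊).filter
      (fun p => p.Prime ∧ red (p ^ 1) (fun j => c j + (n j : ℤ)) ∈ Ω (p ^ 1)) = ∅ := by
    rw [filter_eq_empty_iff]
    intro p hp hcon
    apply hn.2
    rw [mem_Icc, Nat.ceil_le] at hp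
    refine ⟨p, hcon.1, hp.1, ?_⟩
    have h3 := hcon.2
    have e2 : (red (p ^ 1) (fun j => c j + (n j : ℤ)) ∈ Ω (p ^ 1)) = (red p (fun j => c j + (n j : ℤ)) ∈ Ω p) :=
      congrArg (fun m : ℕ => red m (fun j => c j + (n j : ℤ)) ∈ Ω m) (pow_one p)
    rwa [e2] at h3
  rw [h2]
  simp

open Classical in
/-- few zeros -/
theorem nonzero {r : ℕ} (hr : 1 ≤ r) (b : Fin r → ℕ) (hb : ∀ j, 2 ≤ b j) (η : ℝ) (hη : 0 < η)
    {D : MvPolynomial (Fin r) ℤ} (hD : D ≠ 0) (ε : ℝ) (hε : 0 < ε) :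
    ∃ N₀ : ℕ, ∀ N : ℕ, N₀ ≤ N → ∀ k : Fin r → ℕ, (∀ j, N ≤ b j ^ k j) →
    ∀ w : Fin r → ℕ → ℕ → ℝ, (∀ j, Dig (b j) η (w j)) → ∀ c : Fin r → ℤ,
    ∑ n ∈ (OmV b k).filter (fun n => eval (fun j => c j + (n j : ℤ)) D = 0), PV b k w n ≤ ε := by
  obtain ⟨p₁, hp₁⟩ := few_zeros hD
  obtain ⟨C, hC, hmert⟩ := mertens_low
  obtain ⟨p₀, hp₀⟩ : ∃ p₀ : ℕ, p₀ = p₁ + D.totalDegree + 3 := ⟨_, rfl⟩
  obtain ⟨θ, hθ, N₀, h⟩ := sieve1 hr b hb η hη 1 zero_le_one 1 C one_pos p₀ ε hε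
  refine ⟨N₀, fun N hN k hk w hw c => ?_⟩
  -- sets of non-zeros
  have hsets : ∀ p : ℕ, ∃ S : Set (Fin r → ZMod p), (p.Prime → p₀ ≤ p →
      (S.ncard : ℝ) / (p : ℝ) ^ r = 1 / p ∧ ∀ ρ ∈ S, aeval ρ D ≠ 0) ∧ (¬ (p.Prime ∧ p₀ ≤ p) → S = ∅) := by
    intro p
    by_cases hp : p.Prime ∧ p₀ ≤ p
    · have : NeZero p := ⟨hp.1.ne_zero⟩
      have hp0 : (0 : ℝ) < p := by exact_mod_cast hp.1.pos
      have h1 := hp₁ p hp.1 (by omega)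
      obtain ⟨r', rfl⟩ : ∃ r', r = r' + 1 := ⟨r - 1, by omega⟩
      have h2 : p ^ r' ≤ {ρ : Fin (r' + 1) → ZMod p | aeval ρ D ≠ 0}.ncard := by
        have h3 := Set.ncard_add_ncard_compl {ρ : Fin (r' + 1) → ZMod p | aeval ρ D = 0}
        rw [Nat.card_eq_fintype_card, Fintype.card_fun, ZMod.card, Fintype.card_fin] at h3
        have h4 : {ρ : Fin (r' + 1) → ZMod p | aeval ρ D = 0}ᶜ = {ρ : Fin (r' + 1) → ZMod p | aeval ρ D ≠ 0} := rfl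
        rw [h4] at h3
        rw [div_le_div_iff₀ (by positivity) hp0] at h1
        have h5 : (({ρ : Fin (r' + 1) → ZMod p | aeval ρ D = 0}.ncard : ℝ)) ≤ D.totalDegree * (p : ℝ) ^ r' := by
          have h6 : (({ρ : Fin (r' + 1) → ZMod p | aeval ρ D = 0}.ncard : ℝ)) * p ≤ (D.totalDegree * (p : ℝ) ^ r') * p := by
            calc _ ≤ _ := h1
              _ = _ := by ring
          exact le_of_mul_le_mul_right h6 hp0
        have h6 : {ρ : Fin (r' + 1) → ZMod p | aeval ρ D = 0}.ncard ≤ D.totalDegree * p ^ r' := by exact_mod_cast h5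
        have h7 : p ^ (r' + 1) = p * p ^ r' := by ring
        have h8 : (D.totalDegree + 1) * p ^ r' ≤ p * p ^ r' := Nat.mul_le_mul_right _ (by omega)
        nlinarith
      obtain ⟨S, hS, hSc⟩ := Set.exists_subset_card_eq h2
      refine ⟨S, fun _ _ => ⟨?_, fun ρ hρ => hS hρ⟩, fun h => absurd hp h⟩
      rw [hSc]
      push_cast
      rw [pow_succ]
      field_simp
    · exact ⟨∅, fun h1 h2 => absurd ⟨h1, h2⟩ hp, fun _ => rfl⟩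
  choose S hS hS' using hsets
  have h1 := h N hN k hk w hw c S (fun p hp hpp => ((hS p hp hpp).1).le) (by
    intro y x hy hyx
    rw [one_mul]
    refine (hmert y x (by omega) hyx).trans (le_of_eq ?_)
    apply sum_congr rfl
    intro p hp
    rw [mem_filter, mem_Ioc] at hp
    exact ((hS p hp.2 (by omega)).1).symm)
  refine le_trans (sum_le_sum_of_subset_of_nonneg ?_ fun n _ _ => PV_nonneg hw n) h1
  intro n hn
  rw [mem_filter] at hn ⊢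
  refine ⟨hn.1, ?_⟩
  rintro ⟨p, hp, hpN, hmem⟩
  by_cases hpp : p₀ ≤ p
  · have h2 := (hS p hp hpp).2 _ hmem
    apply h2
    change aeval (fun i => ((fun j => c j + (n j : ℤ)) i : ZMod p)) D = 0
    rw [eval_red, hn.2, Int.cast_zero]
  · rw [hS' p (fun h => hpp h.2)] at hmem
    exact hmem

open Classical in
/-- values of a polynomial and a local condition at a large prime -/
theorem coreD {r : ℕ} (hr : 1 ≤ r) (b : Fin r → ℕ) (hb : ∀ j, 2 ≤ b j) (η : ℝ) (hη : 0 < η)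
    {D : MvPolynomial (Fin r) ℤ} (hD : D ≠ 0) {Ω : ∀ p : ℕ, Set (Fin r → ZMod p)} (hM : MeanSet Ω)
    (hΩ : ∀ p, ∀ ρ ∈ Ω p, aeval ρ D = 0) (ε : ℝ) (hε : 0 < ε) :
    ∃ θ : ℝ, 0 < θ ∧ ∃ N₀ : ℕ, 1 ≤ N₀ ∧ ∀ N : ℕ, N₀ ≤ N → ∀ k : Fin r → ℕ, (∀ j, N ≤ b j ^ k j) →
    ∀ w : Fin r → ℕ → ℕ → ℝ, (∀ j, Dig (b j) η (w j)) → ∀ c : Fin r → ℤ,
    ∑ n ∈ (OmV b k).filter (fun n => ¬ (eval (fun j => c j + (n j : ℤ)) D ≠ 0 ∧ ∃ p : ℕ, p.Prime ∧ (N : ℝ) ^ θ ≤ p ∧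
      red p (fun j => c j + (n j : ℤ)) ∈ Ω p)), PV b k w n ≤ ε := by
  obtain ⟨δ, C₁, hδ, hmean⟩ := hM
  obtain ⟨p₁, hp₁⟩ := few_zeros hD
  obtain ⟨θ, hθ, N₁, h1⟩ := sieve1 hr b hb η hη D.totalDegree (Nat.cast_nonneg _) δ C₁ hδ (p₁ + 3) (ε / 2) (by positivity)
  obtain ⟨N₂, h2⟩ := nonzero hr b hb η hη hD (ε / 2) (by positivity)
  refine ⟨θ, hθ, max (max N₁ N₂) 1, le_max_right _ _, fun N hN k hk w hw c => ?_⟩
  have hN1 : N₁ ≤ N := (le_max_left _ _).trans ((le_max_left _ _).trans hN)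
  have hN2 : N₂ ≤ N := (le_max_right _ _).trans ((le_max_left _ _).trans hN)
  have h3 := h1 N hN1 k hk w hw c Ω (by
    intro p hp hpp
    refine le_trans ?_ (hp₁ p hp (by omega))
    have : NeZero p := ⟨hp.ne_zero⟩
    apply div_le_div_of_nonneg_right _ (by positivity)
    exact_mod_cast Set.ncard_le_ncard (fun ρ hρ => hΩ p ρ hρ) (Set.toFinite _)) (by
    intro y x hy hyx
    exact hmean y x (by omega) hyx)
  have h4 := h2 N hN2 k hk w hw c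
  have hsub : (OmV b k).filter (fun n => ¬ (eval (fun j => c j + (n j : ℤ)) D ≠ 0 ∧ ∃ p : ℕ, p.Prime ∧ (N : ℝ) ^ θ ≤ p ∧
      red p (fun j => c j + (n j : ℤ)) ∈ Ω p)) ⊆
      (OmV b k).filter (fun n => ¬ ∃ p : ℕ, p.Prime ∧ (N : ℝ) ^ θ ≤ p ∧ red p (fun j => c j + (n j : ℤ)) ∈ Ω p) ∪
      (OmV b k).filter (fun n => eval (fun j => c j + (n j : ℤ)) D = 0) := by
    intro n hn
    rw [mem_filter] at hn
    rw [mem_union, mem_filter, mem_filter]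
    by_cases h5 : eval (fun j => c j + (n j : ℤ)) D = 0
    · exact Or.inr ⟨hn.1, h5⟩
    · exact Or.inl ⟨hn.1, fun h6 => hn.2 ⟨h5, h6⟩⟩
  refine (sum_le_sum_of_subset_of_nonneg hsub fun n _ _ => PV_nonneg hw n).trans ?_
  have h5 := sum_union_inter (s₁ := (OmV b k).filter (fun n => ¬ ∃ p : ℕ, p.Prime ∧ (N : ℝ) ^ θ ≤ p ∧ red p (fun j => c j + (n j : ℤ)) ∈ Ω p))
    (s₂ := (OmV b k).filter (fun n => eval (fun j => c j + (n j : ℤ)) D = 0)) (f := fun n => PV b k w n)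
  have h6 : 0 ≤ ∑ n ∈ (OmV b k).filter (fun n => ¬ ∃ p : ℕ, p.Prime ∧ (N : ℝ) ^ θ ≤ p ∧ red p (fun j => c j + (n j : ℤ)) ∈ Ω p) ∩
    (OmV b k).filter (fun n => eval (fun j => c j + (n j : ℤ)) D = 0), PV b k w n := sum_nonneg fun n _ => PV_nonneg hw n
  linarith

end Pool.Agent.J4.H78.DV
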