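import Pool.Agent.J4.H78.DV.Dist

set_option autoImplicit false

/-! Local conditions at large primes for vectors of integers with independent digits. -/

namespace Pool.Agent.J4.H78.DV
open Finset Filter
open Pool.Agent.H807R2.Dav
open Pool.Agent.TH872.Sq (Dig P P_nonneg P_sum ex_char)
open Pool.Agent.Y722.HS (red)

/-- sums over sparse sets -/
theorem sparse_summable (S : Set ℕ) (C : ℝ) (hC : 0 < C) (D : ℕ) (hD : 1 ≤ D)
    (hS : ∀ (M : ℕ) (T : Finset ℕ), (∀ m ∈ T, m ∈ S ∧ 1 ≤ m ∧ m ≤ M) → (T.card : ℝ) ≤ C * (M : ℝ) ^ (1 / (D : ℝ)))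
    (s : ℝ) (hs : 1 / (D : ℝ) < s) : Summable (fun m : ℕ => S.indicator (fun m : ℕ => (m : ℝ) ^ (-s)) m) := by
  classical
  have hD0 : (0 : ℝ) < D := by exact_mod_cast hD
  have hs0 : 0 < s := lt_trans (by positivity) hs
  obtain ⟨ρ, hρ⟩ : ∃ ρ : ℝ, ρ = (2 : ℝ) ^ (1 / (D : ℝ) - s) := ⟨_, rfl⟩
  have hρ0 : 0 < ρ := by rw [hρ]; positivity
  have hρ1 : ρ < 1 := by
    rw [hρ]
    exact Real.rpow_lt_one_of_one_lt_of_neg (by norm_num) (by linarith)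
  obtain ⟨K, hK⟩ : ∃ K : ℝ, K = C * 2 ^ (1 / (D : ℝ)) := ⟨_, rfl⟩
  have hK0 : 0 < K := by rw [hK]; positivity
  apply summable_of_sum_le (c := K * (1 - ρ)⁻¹)
  · intro m
    apply Set.indicator_nonneg
    intro m _
    positivity
  intro u
  have h0 : ∑ m ∈ u, S.indicator (fun m : ℕ => (m : ℝ) ^ (-s)) m =
      ∑ m ∈ u.filter (fun m => m ∈ S ∧ 1 ≤ m), (m : ℝ) ^ (-s) := by
    rw [sum_filter]
    apply sum_congr rfl
    intro m _
    by_cases h1 : m ∈ S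
    · rw [Set.indicator_of_mem h1]
      by_cases h2 : 1 ≤ m
      · rw [if_pos ⟨h1, h2⟩]
      · have : m = 0 := by omega
        rw [if_neg (fun h => h2 h.2), this, Nat.cast_zero, Real.zero_rpow (by linarith)]
    · rw [Set.indicator_of_notMem h1, if_neg (fun h => h1 h.1)]
  rw [h0]
  obtain ⟨T, hT⟩ : ∃ T : Finset ℕ, T = u.filter (fun m => m ∈ S ∧ 1 ≤ m) := ⟨_, rfl⟩
  rw [← hT]
  have hTm : ∀ m ∈ T, m ∈ S ∧ 1 ≤ m := fun m hm => by
    rw [hT, mem_filter] at hm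
    exact hm.2
  rw [← sum_fiberwise_of_maps_to (t := T.image (Nat.log 2)) (g := Nat.log 2) (fun m hm => mem_image_of_mem _ hm)]
  have hone : ∀ j ∈ T.image (Nat.log 2), ∑ m ∈ T.filter (fun m => Nat.log 2 m = j), (m : ℝ) ^ (-s) ≤ K * ρ ^ j := by
    intro j _
    have h2 : ∀ m ∈ T.filter (fun m => Nat.log 2 m = j), (m : ℝ) ^ (-s) ≤ ((2 : ℝ) ^ j) ^ (-s) := by
      intro m hm
      rw [mem_filter] at hm
      have hm1 := (hTm m hm.1).2
      have h3 : 2 ^ j ≤ m := by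
        rw [← hm.2]
        exact Nat.pow_log_le_self 2 (by omega)
      apply Real.rpow_le_rpow_of_nonpos (by positivity) (by exact_mod_cast h3) (by linarith)
    refine (sum_le_card_nsmul _ _ _ h2).trans ?_
    rw [nsmul_eq_mul]
    have h3 := hS (2 ^ (j + 1)) (T.filter (fun m => Nat.log 2 m = j)) (by
      intro m hm
      rw [mem_filter] at hm
      refine ⟨(hTm m hm.1).1, (hTm m hm.1).2, ?_⟩
      have := Nat.lt_pow_succ_log_self (by norm_num : 1 < 2) m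
      rw [hm.2] at this
      exact this.le)
    have e1 : (((2 ^ (j + 1) : ℕ)) : ℝ) ^ (1 / (D : ℝ)) * ((2 : ℝ) ^ j) ^ (-s) = 2 ^ (1 / (D : ℝ)) * ρ ^ j := by
      push_cast
      rw [hρ, ← Real.rpow_natCast 2 (j + 1), ← Real.rpow_natCast 2 j, ← Real.rpow_natCast _ j, ← Real.rpow_mul (by norm_num),
        ← Real.rpow_mul (by norm_num), ← Real.rpow_mul (by norm_num), ← Real.rpow_add (by norm_num), ← Real.rpow_add (by norm_num)]
      congr 1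
      push_cast
      ring
    calc (((T.filter (fun m => Nat.log 2 m = j)).card : ℕ) : ℝ) * ((2 : ℝ) ^ j) ^ (-s) ≤
          (C * (((2 ^ (j + 1) : ℕ)) : ℝ) ^ (1 / (D : ℝ))) * ((2 : ℝ) ^ j) ^ (-s) :=
          mul_le_mul_of_nonneg_right h3 (by positivity)
      _ = C * ((((2 ^ (j + 1) : ℕ)) : ℝ) ^ (1 / (D : ℝ)) * ((2 : ℝ) ^ j) ^ (-s)) := by ring
      _ = _ := by rw [e1, hK]; ring
  refine (sum_le_sum hone).trans ?_
  rw [← mul_sum]
  apply mul_le_mul_of_nonneg_left _ hK0.le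
  have hsum := summable_geometric_of_lt_one hρ0.le hρ1
  refine (hsum.sum_le_tsum _ fun i _ => by positivity).trans ?_
  rw [tsum_geometric_of_lt_one hρ0.le hρ1]

/-- tails of sums over sparse sets -/
theorem sparse_tail (S : Set ℕ) (C : ℝ) (hC : 0 < C) (D : ℕ) (hD : 1 ≤ D)
    (hS : ∀ (M : ℕ) (T : Finset ℕ), (∀ m ∈ T, m ∈ S ∧ 1 ≤ m ∧ m ≤ M) → (T.card : ℝ) ≤ C * (M : ℝ) ^ (1 / (D : ℝ)))
    (s : ℝ) (hs : 1 / (D : ℝ) < s) (ε : ℝ) (hε : 0 < ε) : ∃ Y₀ : ℕ, ∀ T : Finset ℕ, (∀ m ∈ T, m ∈ S ∧ Y₀ < m) →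
      ∑ m ∈ T, (m : ℝ) ^ (-s) ≤ ε := by
  have h1 := summable_iff_vanishing_norm.1 (sparse_summable S C hC D hD hS s hs) ε hε
  obtain ⟨u, hu⟩ := h1
  refine ⟨u.sup id, fun T hT => ?_⟩
  have h2 := hu T (by
    rw [disjoint_left]
    intro m hm hmu
    have h3 : m ≤ u.sup id := le_sup (f := id) hmu
    have := (hT m hm).2
    omega)
  have h3 : ∑ m ∈ T, S.indicator (fun m : ℕ => (m : ℝ) ^ (-s)) m = ∑ m ∈ T, (m : ℝ) ^ (-s) :=
    sum_congr rfl fun m hm => Set.indicator_of_mem (hT m hm).1 _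
  rw [h3] at h2
  exact (le_abs_self _).trans h2.le

open Classical in
/-- ordered pairs of primes whose powers have a product in a set -/
lemma pairs_pow (P : Finset ℕ) (hP : ∀ p ∈ P, p.Prime) (S : Set ℕ) (i l : ℕ) (hi : 1 ≤ i) (hl : 1 ≤ l) (g : ℕ → ℝ) (hg : ∀ m, 0 ≤ g m) :
    ∑ p ∈ P, ∑ q ∈ P, (if p ≠ q ∧ p ^ i * q ^ l ∈ S then g (p ^ i * q ^ l) else 0) ≤
      4 * ∑ m ∈ ((P ×ˢ P).filter (fun z => z.1 ≠ z.2 ∧ z.1 ^ i * z.2 ^ l ∈ S)).image (fun z => z.1 ^ i * z.2 ^ l), g m := by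
  rw [← sum_product', ← sum_filter]
  obtain ⟨Q, hQ⟩ : ∃ Q : Finset (ℕ × ℕ), Q = (P ×ˢ P).filter (fun z => z.1 ≠ z.2 ∧ z.1 ^ i * z.2 ^ l ∈ S) := ⟨_, rfl⟩
  rw [← hQ]
  rw [← sum_fiberwise_of_maps_to (g := fun z : ℕ × ℕ => z.1 ^ i * z.2 ^ l) (fun z hz => mem_image_of_mem _ hz)
    (fun z => g (z.1 ^ i * z.2 ^ l)), mul_sum]
  apply sum_le_sum
  intro m hm
  rw [sum_congr rfl (fun z hz => by rw [(mem_filter.1 hz).2]), sum_const, nsmul_eq_mul]
  apply mul_le_mul_of_nonneg_right _ (hg m)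
  obtain ⟨z₀, hz₀, hzm⟩ := mem_image.1 hm
  rw [hQ, mem_filter, mem_product] at hz₀
  have p1 := hP _ hz₀.1.1
  have p2 := hP _ hz₀.1.2
  have hsub : Q.filter (fun z => z.1 ^ i * z.2 ^ l = m) ⊆ ({z₀.1, z₀.2} : Finset ℕ) ×ˢ ({z₀.1, z₀.2} : Finset ℕ) := by
    intro z hz
    rw [mem_filter, hQ, mem_filter, mem_product] at hz
    have q1 := hP _ hz.1.1.1
    have q2 := hP _ hz.1.1.2
    have key : ∀ q : ℕ, q.Prime → q ∣ m → q = z₀.1 ∨ q = z₀.2 := by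
      intro q hq hqm
      rw [← hzm] at hqm
      rcases (Nat.Prime.dvd_mul hq).1 hqm with h | h
      · left
        exact (Nat.prime_dvd_prime_iff_eq hq p1).1 (hq.dvd_of_dvd_pow h)
      · right
        exact (Nat.prime_dvd_prime_iff_eq hq p2).1 (hq.dvd_of_dvd_pow h)
    rw [mem_product, mem_insert, mem_singleton, mem_insert, mem_singleton]
    refine ⟨key _ q1 ?_, key _ q2 ?_⟩
    · rw [← hz.2]
      exact Dvd.dvd.mul_right (dvd_pow_self _ (by omega)) _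
    · rw [← hz.2]
      exact Dvd.dvd.mul_left (dvd_pow_self _ (by omega)) _
  have h1 := card_le_card hsub
  rw [card_product] at h1
  have h2 : ({z₀.1, z₀.2} : Finset ℕ).card ≤ 2 := card_le_two
  have h3 : (Q.filter (fun z => z.1 ^ i * z.2 ^ l = m)).card ≤ 4 := by nlinarith
  exact_mod_cast h3

end Pool.Agent.J4.H78.DV
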